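import Mathlib
import Pool.Agent.H563R3.EAFinal

set_option autoImplicit false
set_option linter.unusedSectionVars false
set_option linter.unusedVariables false
set_option linter.deprecated false
open MeasureTheory ProbabilityTheory Filter Topology
open scoped BoundedContinuousFunction ENNReal
open Pool.Agent.H563R3.EA

/-! The limit of the averages of the lazy walk is the conditional expectation given the invariant
sets. -/

namespace Pool.Agent.Y202.EA

variable {d : ℕ} {μ : Measure (Site d → ℝ)} [IsProbabilityMeasure μ]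

/-- A bounded solution of `T L = L` is invariant. -/
theorem fixed_inv [NeZero d] (hsh : ∀ x : Site d, MeasurePreserving (sft x) μ μ)
    (L : (Site d → ℝ) → ℝ) (M : ℝ) (hLm : Measurable L) (hLb : ∀ᵐ η ∂μ, |L η| ≤ M)
    (hfix : ∀ᵐ η ∂μ, L η = TT tau L η) (j : Dir d × Bool) :
    (fun η => L (tau j η)) =ᵐ[μ] L := by
  classical
  have hτ : ∀ j : Dir d × Bool, MeasurePreserving (tau j) μ μ := tau_mp hsh
  have hne : Nonempty (Dir d × Bool) := ⟨j⟩
  have hc : (0 : ℝ) < Fintype.card (Dir d × Bool) := by exact_mod_cast Fintype.card_pos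
  have hbj : ∀ i, ∀ᵐ η ∂μ, |L (tau i η)| ≤ M := fun i => (hτ i).quasiMeasurePreserving.ae hLb
  have hmj : ∀ i, Measurable (fun η => L (tau i η)) := fun i => hLm.comp (hτ i).measurable
  have hi1 : ∀ i, Integrable (fun η => L (tau i η) ^ 2) μ := fun i =>
    Integrable.of_bound ((hmj i).pow_const 2).aestronglyMeasurable (M ^ 2) (by
      filter_upwards [hbj i] with η e
      rw [Real.norm_eq_abs, abs_pow]
      exact pow_le_pow_left₀ (abs_nonneg _) e 2)
  have hi2 : Integrable (fun η => L η ^ 2) μ :=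
    Integrable.of_bound (hLm.pow_const 2).aestronglyMeasurable (M ^ 2) (by
      filter_upwards [hLb] with η e
      rw [Real.norm_eq_abs, abs_pow]
      exact pow_le_pow_left₀ (abs_nonneg _) e 2)
  have hi3 : ∀ i, Integrable (fun η => L (tau i η) * L η) μ := fun i =>
    Integrable.of_bound ((hmj i).mul hLm).aestronglyMeasurable (M * M) (by
      filter_upwards [hbj i, hLb] with η e1 e2
      rw [Real.norm_eq_abs, abs_mul]
      exact mul_le_mul e1 e2 (abs_nonneg _) ((abs_nonneg _).trans e1))
  have hsq : ∀ i, ∫ η, L (tau i η) ^ 2 ∂μ = ∫ η, L η ^ 2 ∂μ := by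
    intro i
    have e := integral_map (hτ i).aemeasurable (f := fun η => L η ^ 2)
      (by rw [(hτ i).map_eq]; exact (hLm.pow_const 2).aestronglyMeasurable)
    rw [(hτ i).map_eq] at e
    exact e.symm
  have hdiff : ∀ i, ∫ η, (L (tau i η) - L η) ^ 2 ∂μ =
      2 * ∫ η, L η ^ 2 ∂μ - 2 * ∫ η, L (tau i η) * L η ∂μ := by
    intro i
    have e1 : ∀ η, (L (tau i η) - L η) ^ 2 = (L (tau i η) ^ 2 + L η ^ 2) -
        2 * (L (tau i η) * L η) := by intro η; ring
    have j1 : Integrable (fun η => L (tau i η) ^ 2 + L η ^ 2) μ := (hi1 i).add hi2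
    simp only [e1]
    rw [integral_sub j1 ((hi3 i).const_mul 2), integral_add (hi1 i) hi2, hsq i,
      integral_const_mul]
    ring
  have hsum : ∑ i, ∫ η, L (tau i η) * L η ∂μ =
      Fintype.card (Dir d × Bool) * ∫ η, L η ^ 2 ∂μ := by
    rw [← integral_finsetSum _ (fun i _ => hi3 i), ← integral_const_mul]
    refine integral_congr_ae ?_
    filter_upwards [hfix] with η e
    rw [TT_apply] at e
    rw [← Finset.sum_mul]
    have e2 : ∑ i, L (tau i η) = Fintype.card (Dir d × Bool) * L η := by
      rw [e]; field_simp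
    rw [e2]; ring
  have hzero : ∑ i, ∫ η, (L (tau i η) - L η) ^ 2 ∂μ = 0 := by
    simp only [hdiff]
    rw [Finset.sum_sub_distrib, Finset.sum_const, Finset.card_univ, nsmul_eq_mul,
      ← Finset.mul_sum, hsum]
    ring
  have hj := (Finset.sum_eq_zero_iff_of_nonneg (fun i _ =>
    integral_nonneg (fun η => sq_nonneg (L (tau i η) - L η)))).1 hzero j (Finset.mem_univ _)
  have hint : Integrable (fun η => (L (tau j η) - L η) ^ 2) μ := by
    have e1 : (fun η => (L (tau j η) - L η) ^ 2) = (fun η => (L (tau j η) ^ 2 + L η ^ 2) -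
        2 * (L (tau j η) * L η)) := by funext η; ring
    rw [e1]
    exact ((hi1 j).add hi2).sub ((hi3 j).const_mul 2)
  rw [integral_eq_zero_iff_of_nonneg (fun η => sq_nonneg _) hint] at hj
  filter_upwards [hj] with η e
  have e' : (L (tau j η) - L η) ^ 2 = 0 := e
  have := pow_eq_zero_iff (two_ne_zero) |>.1 e'
  linarith

/-- From the steps to all translations. -/
theorem all_inv (hsh : ∀ x : Site d, MeasurePreserving (sft x) μ μ)
    (L : (Site d → ℝ) → ℝ) (h : ∀ i : Fin d, (fun η => L (sft (Pi.single i 1) η)) =ᵐ[μ] L)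
    (x : Site d) : (fun η => L (sft x η)) =ᵐ[μ] L := by
  classical
  let K : AddSubgroup (Site d) :=
    { carrier := {x | (fun η => L (sft x η)) =ᵐ[μ] L}
      add_mem' := by
        intro a b ha hb
        have h1 := (hsh b).quasiMeasurePreserving.ae_eq_comp ha
        show (fun η => L (sft (a + b) η)) =ᵐ[μ] L
        filter_upwards [h1, hb] with η e1 e2
        have e3 : L (sft a (sft b η)) = L (sft b η) := e1
        rw [sft_sft] at e3
        rw [e3, e2]
      zero_mem' := by
        show (fun η => L (sft 0 η)) =ᵐ[μ] L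
        simp only [sft_zero]
        exact EventuallyEq.rfl
      neg_mem' := by
        intro a ha
        have h1 := (hsh (-a)).quasiMeasurePreserving.ae_eq_comp ha
        show (fun η => L (sft (-a) η)) =ᵐ[μ] L
        filter_upwards [h1] with η e1
        have e3 : L (sft a (sft (-a) η)) = L (sft (-a) η) := e1
        rw [sft_sft, add_neg_cancel, sft_zero] at e3
        exact e3.symm }
  have hx : x ∈ K := by
    rw [← Finset.univ_sum_single x]
    refine K.sum_mem (fun i _ => ?_)
    have e : (Pi.single i (x i) : Site d) = (x i) • (Pi.single i 1 : Site d) := by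
      rw [← Pi.single_smul]; simp
    rw [e]
    exact K.zsmul_mem (h i) _
  exact hx

/-- The limit of the averages of the lazy walk. -/
theorem walk_limit [NeZero d] (hsh : ∀ x : Site d, MeasurePreserving (sft x) μ μ)
    (φ : (Site d → ℝ) → ℝ) (M : ℝ) (hφm : Measurable φ) (hφ : ∀ x, |φ x| ≤ M) :
    ∃ L : (Site d → ℝ) → ℝ, Measurable L ∧ (∀ η, |L η| ≤ M) ∧ (∀ x η, L (sft x η) = L η) ∧
      (∀ᵐ η ∂μ, Tendsto (fun n => (TT tau ^ n) φ η) atTop (𝓝 (L η))) ∧
      (∀ A : Set (Site d → ℝ), MeasurableSet A → (∀ x, sft x ⁻¹' A = A) →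
        ∫ η in A, L η ∂μ = ∫ η in A, φ η ∂μ) := by
  classical
  have hτ : ∀ j : Dir d × Bool, MeasurePreserving (tau j) μ μ := tau_mp hsh
  have hτm : ∀ j : Dir d × Bool, Measurable (tau (d := d) j) := fun j => (hτ j).measurable
  have hne : Nonempty (Dir d × Bool) := ⟨((⟨0, Nat.pos_of_ne_zero (NeZero.ne d)⟩, true), true)⟩
  have hM : 0 ≤ M := by
    obtain ⟨x⟩ := μ.nonempty_of_neZero
    exact (abs_nonneg _).trans (hφ x)
  have hb : ∀ j x, |(TT tau ^ j) φ x| ≤ M := fun j x => TT_pow_bound tau φ M hφ j x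
  have hTm : ∀ n, Measurable ((TT tau ^ n) φ) := fun n => TT_pow_meas hτm hφm n
  obtain ⟨L0, hL0m, hL0⟩ := measurable_limit_of_tendsto_metrizable_ae
    (f := fun n => (TT tau ^ n) φ) (L := atTop) (μ := μ) (fun n => (hTm n).aemeasurable)
    (walk_converges hsh φ M hφm hφ)
  have hL0b : ∀ᵐ η ∂μ, |L0 η| ≤ M := by
    filter_upwards [hL0] with η e
    exact le_of_tendsto' e.abs (fun n => hb n η)
  have hfix : ∀ᵐ η ∂μ, L0 η = TT tau L0 η := by
    have h1 : ∀ᵐ η ∂μ, ∀ j : Dir d × Bool,
        Tendsto (fun n => (TT tau ^ n) φ (tau j η)) atTop (𝓝 (L0 (tau j η))) :=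
      ae_all_iff.2 (fun j => (hτ j).quasiMeasurePreserving.ae hL0)
    filter_upwards [h1, hL0] with η e1 e2
    have e3 : Tendsto (fun n => (TT tau ^ (n + 1)) φ η) atTop (𝓝 (TT tau L0 η)) := by
      simp only [TT_pow_succ, TT_apply]
      exact (tendsto_finset_sum _ (fun j _ => e1 j)).const_mul _
    exact tendsto_nhds_unique ((tendsto_add_atTop_iff_nat 1).2 e2) e3
  have hinv1 : ∀ i : Fin d, (fun η => L0 (sft (Pi.single i 1) η)) =ᵐ[μ] L0 := by
    intro i
    have h1 := fixed_inv hsh L0 M hL0m hL0b hfix ((i, true), true)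
    have e : (tau ((i, true), true) : (Site d → ℝ) → (Site d → ℝ)) = sft (Pi.single i 1) := by
      simp [tau, step]
    rw [e] at h1
    exact h1
  have hinv := all_inv hsh L0 hinv1
  set A0 : Set (Site d → ℝ) := {η | ∀ x y : Site d, L0 (sft x η) = L0 (sft y η)} with hA0
  have hA0m : MeasurableSet A0 := by
    have : A0 = ⋂ x : Site d, ⋂ y : Site d, {η | L0 (sft x η) = L0 (sft y η)} := by
      ext η; simp [hA0]
    rw [this]
    exact MeasurableSet.iInter (fun x => MeasurableSet.iInter (fun y =>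
      measurableSet_eq_fun (hL0m.comp (sft_meas x)) (hL0m.comp (sft_meas y))))
  have hA0inv : ∀ x η, sft x η ∈ A0 ↔ η ∈ A0 := by
    have key : ∀ x η, η ∈ A0 → sft x η ∈ A0 := by
      intro x η h a b
      rw [sft_sft, sft_sft]
      exact h _ _
    intro x η
    refine ⟨fun h => ?_, key x η⟩
    have := key (-x) _ h
    rwa [sft_sft, neg_add_cancel, sft_zero] at this
  have hA0ae : ∀ᵐ η ∂μ, η ∈ A0 := by
    filter_upwards [ae_all_iff.2 hinv] with η e x y
    rw [e x, e y]
  set L : (Site d → ℝ) → ℝ := fun η => if η ∈ A0 then max (-M) (min M (L0 η)) else 0 with hL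
  have hLm : Measurable L :=
    Measurable.ite hA0m (measurable_const.max (measurable_const.min hL0m)) measurable_const
  have hLb : ∀ η, |L η| ≤ M := by
    intro η
    simp only [hL]
    split_ifs
    · rw [abs_le]
      exact ⟨le_max_left _ _, max_le (by linarith) (min_le_left _ _)⟩
    · simpa using hM
  have hLinv : ∀ x η, L (sft x η) = L η := by
    intro x η
    simp only [hL]
    by_cases h1 : η ∈ A0
    · rw [if_pos h1, if_pos ((hA0inv x η).2 h1)]
      have h2 := h1 x 0
      rw [sft_zero] at h2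
      rw [h2]
    · rw [if_neg h1, if_neg (fun h => h1 ((hA0inv x η).1 h))]
  have hLeq : ∀ᵐ η ∂μ, L η = L0 η := by
    filter_upwards [hA0ae, hL0b] with η e1 e2
    simp only [hL]
    have h3 := abs_le.1 e2
    rw [if_pos e1, min_eq_right h3.2, max_eq_right h3.1]
  have hLt : ∀ᵐ η ∂μ, Tendsto (fun n => (TT tau ^ n) φ η) atTop (𝓝 (L η)) := by
    filter_upwards [hLeq, hL0] with η e1 e2
    rw [e1]; exact e2
  refine ⟨L, hLm, hLb, hLinv, hLt, fun A hA hAinv => ?_⟩
  -- the integrals over invariant sets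
  have hφi : Integrable φ μ := Integrable.of_bound hφm.aestronglyMeasurable M
    (Eventually.of_forall (fun x => by rw [Real.norm_eq_abs]; exact hφ x))
  have hAt : ∀ (j : Dir d × Bool) (η : Site d → ℝ), tau j η ∈ A ↔ η ∈ A := by
    intro j η
    unfold tau
    split_ifs with h
    · show η ∈ sft (step j.1) ⁻¹' A ↔ _
      rw [hAinv]
    · exact Iff.rfl
  have hind : ∀ n, (TT tau ^ n) (A.indicator φ) = A.indicator ((TT tau ^ n) φ) := by
    intro n
    induction n with
    | zero => rfl
    | succ n ih =>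
      rw [TT_pow_succ, ih, TT_pow_succ]
      funext η
      rw [TT_apply]
      by_cases h : η ∈ A
      · rw [Set.indicator_of_mem h, TT_apply]
        congr 1
        refine Finset.sum_congr rfl (fun j _ => ?_)
        rw [Set.indicator_of_mem ((hAt j η).2 h)]
      · rw [Set.indicator_of_notMem h]
        have : ∀ j : Dir d × Bool, A.indicator ((TT tau ^ n) φ) (tau j η) = 0 := fun j =>
          Set.indicator_of_notMem (fun hh => h ((hAt j η).1 hh)) _
        simp only [this, Finset.sum_const_zero, mul_zero]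
  have hTi : ∀ (n : ℕ) (G : (Site d → ℝ) → ℝ), Integrable G μ →
      Integrable ((TT tau ^ n) G) μ ∧ ∫ η, (TT tau ^ n) G η ∂μ = ∫ η, G η ∂μ := by
    intro n G hG
    induction n with
    | zero => exact ⟨hG, rfl⟩
    | succ n ih =>
      rw [TT_pow_succ]
      exact ⟨TT_integrable hτ ih.1, (TT_integral hτ ih.1).trans ih.2⟩
  have hconst : ∀ n, ∫ η in A, (TT tau ^ n) φ η ∂μ = ∫ η in A, φ η ∂μ := by
    intro n
    have h1 := (hTi n (A.indicator φ) (hφi.indicator hA)).2
    rw [hind n] at h1
    rw [← integral_indicator hA, ← integral_indicator hA]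
    exact h1
  have hlim : Tendsto (fun n => ∫ η in A, (TT tau ^ n) φ η ∂μ) atTop (𝓝 (∫ η in A, L η ∂μ)) := by
    refine tendsto_integral_of_dominated_convergence (fun _ => M)
      (fun n => (hTm n).aestronglyMeasurable) (integrable_const _)
      (fun n => Eventually.of_forall (fun η => by rw [Real.norm_eq_abs]; exact hb n η)) ?_
    exact ae_restrict_of_ae hLt
  simp only [hconst] at hlim
  exact (tendsto_nhds_unique hlim tendsto_const_nhds)

/-- The invariant sets. -/
@[reducible] def invSets (d : ℕ) : MeasurableSpace (Site d → ℝ) where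
  MeasurableSet' A := MeasurableSet A ∧ ∀ x : Site d, sft x ⁻¹' A = A
  measurableSet_empty := ⟨MeasurableSet.empty, fun _ => rfl⟩
  measurableSet_compl A hA := ⟨hA.1.compl, fun x => by rw [Set.preimage_compl, hA.2 x]⟩
  measurableSet_iUnion A hA := ⟨MeasurableSet.iUnion (fun i => (hA i).1), fun x => by
    rw [Set.preimage_iUnion]; exact Set.iUnion_congr (fun i => (hA i).2 x)⟩

theorem invSets_le : invSets d ≤ (inferInstance : MeasurableSpace (Site d → ℝ)) := fun _ h => h.1

variable {Ω : Type} {mΩ : MeasurableSpace Ω} {P : Measure Ω} [IsProbabilityMeasure P]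

/-- The limit as a conditional expectation. -/
theorem limit_condExp {g : Ω → Site d → ℝ} (hg : Measurable g) (φ L : (Site d → ℝ) → ℝ) (M : ℝ)
    (hφm : Measurable φ) (hφ : ∀ x, |φ x| ≤ M) (hLm : Measurable L) (hLb : ∀ η, |L η| ≤ M)
    (hLinv : ∀ x η, L (sft x η) = L η)
    (hint : ∀ A : Set (Site d → ℝ), MeasurableSet A → (∀ x, sft x ⁻¹' A = A) →
        ∫ η in A, L η ∂(P.map g) = ∫ η in A, φ η ∂(P.map g)) :
    (fun ω => L (g ω)) =ᵐ[P] P[fun ω => φ (g ω) | (invSets d).comap g] := by
  have hm : (invSets d).comap g ≤ mΩ := by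
    rintro s ⟨A, hA, rfl⟩
    exact hg hA.1
  refine ae_eq_condExp_of_forall_setIntegral_eq hm ?_ ?_ ?_ ?_
  · exact Integrable.of_bound (hφm.comp hg).aestronglyMeasurable M
      (Eventually.of_forall (fun x => by rw [Real.norm_eq_abs]; exact hφ _))
  · intro s _ _
    exact (Integrable.of_bound (hLm.comp hg).aestronglyMeasurable M
      (Eventually.of_forall (fun x => by rw [Real.norm_eq_abs]; exact hLb _))).integrableOn
  · rintro s ⟨A, hA, rfl⟩ _
    have h1 := hint A hA.1 hA.2
    rw [setIntegral_map hA.1 hLm.aestronglyMeasurable hg.aemeasurable,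
      setIntegral_map hA.1 hφm.aestronglyMeasurable hg.aemeasurable] at h1
    exact h1
  · have h1 : Measurable[invSets d] L := by
      intro B hB
      refine ⟨hLm hB, fun x => ?_⟩
      ext η
      show L (sft x η) ∈ B ↔ L η ∈ B
      rw [hLinv]
    have h2 : Measurable[(invSets d).comap g] (fun ω => L (g ω)) := by
      intro B hB
      exact ⟨L ⁻¹' B, h1 hB, rfl⟩
    exact h2.stronglyMeasurable.aestronglyMeasurable

end Pool.Agent.Y202.EA
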