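import Mathlib
import Pool.Agent.H563R3.EALat

set_option autoImplicit false
set_option linter.unusedSectionVars false
set_option linter.deprecated false
open MeasureTheory Filter Topology
open scoped BoundedContinuousFunction
open Pool.Agent.H563R3.EA

/-! The exact form of the energy estimate for the edge averaging process. The proof is that of
`Pool.Agent.H563R3.EA.main_bound`, with the last step changed. -/

namespace Pool.Agent.Y202.EA

variable {d : ℕ}

/-- The main analytic estimate, with the exact value on the right. -/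
theorem main_bound' [NeZero d] (φ0 : X2 d)
    (hnice : ∀ s, 0 ≤ s → Nice (sg (opL d) s φ0))
    (hG : ∀ s, 0 ≤ s → ∀ a, 0 ≤ GG (sg (opL d) s φ0) a) (T : ℝ) (hT : 0 ≤ T) :
    ∫ s in (0 : ℝ)..T, (sg (opL d) s φ0 (0, 0) - sg (opB d) s φ0 (0, 0)) ≤
      φ0 (0, 0) - sg (opL d) T φ0 (0, 0) := by
  -- derivative facts
  set φ : ℝ → X2 d := fun s => sg (opL d) s φ0 with hφ
  set E : X2 d →L[ℝ] ℝ := evl (0, 0) with hE
  have hL : ∀ s, HasDerivAt φ (opL d (φ s)) s := by
    intro s
    have := (sg_hasDerivAt' (opL d) s).clm_apply (hasDerivAt_const s φ0)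
    simpa using this
  have hB : ∀ s, HasDerivAt (fun s => pr (opB d) s φ0) (sg (opB d) s φ0) s := by
    intro s
    have := (pr_hasDerivAt (opB d) s).clm_apply (hasDerivAt_const s φ0)
    simpa using this
  have hP : ∀ s, HasDerivAt (fun s => pr (opB d) (T - s)) (-(sg (opB d) (T - s))) s := by
    intro s
    have h1 : HasDerivAt (fun s : ℝ => T - s) (-1) s := (hasDerivAt_id s).const_sub T
    have := (pr_hasDerivAt (opB d) (T - s)).scomp s h1
    rw [neg_one_smul] at this
    exact this
  have hφc : Continuous φ := continuous_iff_continuousAt.2 (fun s => (hL s).continuousAt)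
  have hprc : Continuous (pr (opB d)) :=
    continuous_iff_continuousAt.2 (fun s => (pr_hasDerivAt (opB d) s).continuousAt)
  -- the derivative of the first function
  have hA : ∀ s, HasDerivAt (fun s => pr (opB d) (T - s) (φ s))
      (-φ s + pr (opB d) (T - s) (opC d (φ s))) s := by
    intro s
    have h1 := (hP s).clm_apply (hL s)
    have h2 : (-(sg (opB d) (T - s))) (φ s) + pr (opB d) (T - s) (opL d (φ s)) =
        -φ s + pr (opB d) (T - s) (opC d (φ s)) := by
      have h3 : pr (opB d) (T - s) (opB d (φ s)) = sg (opB d) (T - s) (φ s) - φ s := by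
        have h4 : pr (opB d) (T - s) (opB d (φ s)) = (pr (opB d) (T - s) * opB d) (φ s) := rfl
        rw [h4, pr_mul]; rfl
      have h5 : opL d (φ s) = opB d (φ s) + opC d (φ s) := rfl
      rw [h5, map_add, h3]
      show -(sg (opB d) (T - s) (φ s)) + _ = _
      abel
    rwa [h2] at h1
  set Q : ℝ → ℝ := fun s => E (pr (opB d) (T - s) (φ s)) + E (pr (opB d) s φ0) + E (φ s) with hQ
  set Q' : ℝ → ℝ := fun s => E (-φ s + pr (opB d) (T - s) (opC d (φ s))) + E (sg (opB d) s φ0) +
    E (opL d (φ s)) with hQ'
  have hQd : ∀ s, HasDerivAt Q (Q' s) s := by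
    intro s
    have h1 := (E.hasFDerivAt.comp_hasDerivAt s (hA s))
    have h2 := (E.hasFDerivAt.comp_hasDerivAt s (hB s))
    have h3 := (E.hasFDerivAt.comp_hasDerivAt s (hL s))
    exact (h1.add h2).add h3
  have hQc : Continuous Q' := by
    have c1 : Continuous (fun s => pr (opB d) (T - s) (opC d (φ s))) :=
      (hprc.comp (continuous_const.sub continuous_id)).clm_apply ((opC d).continuous.comp hφc)
    have c2 : Continuous (fun s => sg (opB d) s φ0) := (sg_continuous _).clm_apply continuous_const
    exact ((E.continuous.comp (hφc.neg.add c1)).add (E.continuous.comp c2)).add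
      (E.continuous.comp ((opL d).continuous.comp hφc))
  have hVc : Continuous (fun s => sg (opL d) s φ0 (0, 0) - sg (opB d) s φ0 (0, 0)) := by
    have c2 : Continuous (fun s => sg (opB d) s φ0) := (sg_continuous _).clm_apply continuous_const
    exact (E.continuous.comp hφc).sub (E.continuous.comp c2)
  have hle : ∀ s ∈ Set.Icc 0 T, sg (opL d) s φ0 (0, 0) - sg (opB d) s φ0 (0, 0) ≤ - Q' s := by
    intro s hs
    have hn := hnice s hs.1
    have e1 : E (pr (opB d) (T - s) (opC d (φ s))) =
        (1 / 2) * ∑ a : Dir d, GG (φ s) a * RR a (T - s) := by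
      rw [opC_nice (φ s) hn, map_smul, map_sum, map_smul, map_sum, smul_eq_mul]
      congr 1
      refine Finset.sum_congr rfl (fun a _ => ?_)
      rw [map_smul, map_smul, smul_eq_mul]; rfl
    have e2 : ∑ a : Dir d, GG (φ s) a * RR a (T - s) ≤ ∑ a : Dir d, GG (φ s) a := by
      refine Finset.sum_le_sum (fun a _ => ?_)
      have h1 := hG s hs.1 a
      have h2 := RR_bound a (T - s) (by linarith [hs.2])
      calc GG (φ s) a * RR a (T - s) ≤ GG (φ s) a * 1 := mul_le_mul_of_nonneg_left h2 h1
        _ = _ := mul_one _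
    have e3 : E (opL d (φ s)) = - ((1 / 2) * ∑ a : Dir d, GG (φ s) a) := by
      have h5 : opL d (φ s) = opB d (φ s) + opC d (φ s) := rfl
      rw [h5, map_add, opC_nice (φ s) hn]
      have e4 : E (opB d (φ s)) = - ∑ a : Dir d, GG (φ s) a := by
        show opB d (φ s) (0, 0) = _
        rw [opB_apply, Finset.mul_sum, ← Finset.sum_neg_distrib]
        refine Finset.sum_congr rfl (fun a _ => ?_)
        unfold GG
        rw [hn.2 0 (0 + step a), zero_add]
        ring
      have e5 : E ((1 / 2 : ℝ) • ∑ a : Dir d, GG (φ s) a • rho a) =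
          (1 / 2) * ∑ a : Dir d, GG (φ s) a := by
        rw [map_smul, map_sum, smul_eq_mul]
        congr 1
        refine Finset.sum_congr rfl (fun a _ => ?_)
        rw [map_smul, smul_eq_mul]
        show GG (φ s) a * rho a (0, 0) = _
        rw [rho_apply, if_pos rfl, if_neg]
        · ring
        · intro hh
          rw [zero_add] at hh
          exact step_ne_zero a hh.symm
      rw [e4, e5]; ring
    show E (φ s) - E (sg (opB d) s φ0) ≤ -(E (-φ s + pr (opB d) (T - s) (opC d (φ s))) +
      E (sg (opB d) s φ0) + E (opL d (φ s)))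
    rw [map_add, map_neg, e1, e3]
    linarith
  have hint := intervalIntegral.integral_eq_sub_of_hasDerivAt (fun s _ => hQd s)
    (hQc.intervalIntegrable 0 T)
  have hmono := intervalIntegral.integral_mono_on (μ := volume) hT (hVc.intervalIntegrable 0 T)
    (hQc.neg.intervalIntegrable 0 T) hle
  have hneg : ∫ s in (0 : ℝ)..T, -Q' s = -(Q T - Q 0) := by
    rw [intervalIntegral.integral_neg, hint]
  have hQ0 : Q 0 = E (pr (opB d) T φ0) + E φ0 := by
    simp [hQ, hφ, pr_zero, sg_zero]
  have hQT : Q T = E (pr (opB d) T φ0) + E (φ T) := by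
    simp [hQ, pr_zero]
  refine hmono.trans ?_
  show ∫ s in (0 : ℝ)..T, -Q' s ≤ _
  rw [hneg, hQ0, hQT]
  show _ ≤ E φ0 - E (φ T)
  linarith

end Pool.Agent.Y202.EA
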