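import Mathlib
import Pool.Agent.H563R3.EAFinal
import Pool.Agent.Y202.EA.Bound

set_option autoImplicit false
set_option linter.unusedSectionVars false
set_option linter.unusedVariables false
set_option linter.deprecated false
open MeasureTheory ProbabilityTheory Filter Topology
open scoped BoundedContinuousFunction ENNReal
open Pool.Agent.H563R3.EA

/-! The maximal inequality for the averages of the lazy walk. -/

namespace Pool.Agent.Y202.EA

/-- A grid with a bound for the sum. -/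
theorem exists_grid' (V : ℝ → ℝ) (hc : Continuous V) (h0 : ∀ t, 0 ≤ t → 0 ≤ V t) (C : ℝ)
    (hC : ∀ T, 0 ≤ T → ∫ s in (0 : ℝ)..T, V s ≤ C) :
    ∃ θ : ℝ, 0 < θ ∧ θ ≤ 1 ∧ ∑' j : ℕ, ENNReal.ofReal (V (θ + j)) ≤ ENNReal.ofReal C := by
  have h1 : ∀ j : ℕ, ∫⁻ θ in Set.Ioc (0 : ℝ) 1, ENNReal.ofReal (V (θ + j)) =
      ENNReal.ofReal (∫ s in (j : ℝ)..((j + 1 : ℕ) : ℝ), V s) := by
    intro j
    have hcj : Continuous (fun θ : ℝ => V (θ + j)) := hc.comp (continuous_id.add continuous_const)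
    have hi : IntegrableOn (fun θ : ℝ => V (θ + j)) (Set.Ioc 0 1) :=
      (hcj.integrableOn_Icc (a := 0) (b := 1)).mono_set Set.Ioc_subset_Icc_self
    rw [← ofReal_integral_eq_lintegral_ofReal hi]
    · congr 1
      rw [← intervalIntegral.integral_of_le zero_le_one]
      rw [intervalIntegral.integral_comp_add_right (f := V)]
      congr 1
      · ring
      · push_cast; ring
    · rw [EventuallyLE, ae_restrict_iff' measurableSet_Ioc]
      refine Eventually.of_forall (fun θ hθ => ?_)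
      exact h0 _ (by have := hθ.1; positivity)
  have h2 : ∑' j : ℕ, ∫⁻ θ in Set.Ioc (0 : ℝ) 1, ENNReal.ofReal (V (θ + j)) ≤ ENNReal.ofReal C := by
    apply ENNReal.tsum_le_of_sum_range_le
    intro n
    simp only [h1]
    rw [← ENNReal.ofReal_sum_of_nonneg]
    · apply ENNReal.ofReal_le_ofReal
      have h3 := intervalIntegral.sum_integral_adjacent_intervals (f := V) (μ := volume)
        (a := fun j : ℕ => (j : ℝ)) (n := n) (fun k _ => hc.intervalIntegrable _ _)
      rw [h3]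
      simp only [Nat.cast_zero]
      exact hC _ (by positivity)
    · intro j _
      apply intervalIntegral.integral_nonneg
      · push_cast; linarith
      · intro u hu
        exact h0 u (le_trans (by positivity) hu.1)
  have hmj : ∀ j : ℕ, Measurable (fun θ : ℝ => ENNReal.ofReal (V (θ + j))) := fun j =>
    (hc.comp (continuous_id.add continuous_const)).measurable.ennreal_ofReal
  rw [← lintegral_tsum (fun j => (hmj j).aemeasurable)] at h2
  have hpr : IsProbabilityMeasure (volume.restrict (Set.Ioc (0 : ℝ) 1)) := by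
    refine ⟨?_⟩
    rw [Measure.restrict_apply_univ, Real.volume_Ioc]
    simp
  have hnull : (volume.restrict (Set.Ioc (0 : ℝ) 1)) (Set.Ioc (0 : ℝ) 1)ᶜ = 0 := by
    rw [Measure.restrict_apply measurableSet_Ioc.compl]
    simp
  obtain ⟨θ, hθ1, hθ2⟩ := exists_notMem_null_le_lintegral
    (Measurable.ennreal_tsum hmj).aemeasurable hnull
  have hθ3 : θ ∈ Set.Ioc (0 : ℝ) 1 := by
    by_contra hcon
    exact hθ1 hcon
  exact ⟨θ, hθ3.1, hθ3.2, hθ2.trans h2⟩

/-- Deterministic part of the maximal inequality. -/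
theorem det_max (b : ℕ → ℝ) (lam : ℝ) (hl : 0 ≤ lam)
    (h1 : ∀ n, ∑ i ∈ Finset.range n, ((i : ℝ) + 1) * (b i - b (i + 1)) ^ 2 ≤ lam ^ 2)
    (h2 : ∀ n : ℕ, ∑ k ∈ Finset.range n, b k ^ 2 ≤ n * lam ^ 2) (n : ℕ) : |b n| ≤ 2 * lam := by
  rcases Nat.eq_zero_or_pos n with rfl | hn
  · have h3 := h2 1
    simp only [Finset.range_one, Finset.sum_singleton, Nat.cast_one, one_mul] at h3
    have h4 : |b 0| ≤ lam := abs_le_of_sq_le_sq h3 hl
    linarith
  · have hnr : (0 : ℝ) < n := by exact_mod_cast hn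
    have c1 : |∑ k ∈ Finset.range n, b k| ≤ n * lam := by
      apply abs_le_of_sq_le_sq _ (by positivity)
      calc (∑ k ∈ Finset.range n, b k) ^ 2
          ≤ (Finset.range n).card * ∑ k ∈ Finset.range n, b k ^ 2 := sq_sum_le_card_mul_sum_sq
        _ ≤ n * (n * lam ^ 2) := by
            rw [Finset.card_range]; exact mul_le_mul_of_nonneg_left (h2 n) hnr.le
        _ = (n * lam) ^ 2 := by ring
    have c2 : |∑ i ∈ Finset.range n, ((i : ℝ) + 1) * (b (i + 1) - b i)| ≤ n * lam := by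
      apply abs_le_of_sq_le_sq _ (by positivity)
      calc (∑ i ∈ Finset.range n, ((i : ℝ) + 1) * (b (i + 1) - b i)) ^ 2
          ≤ (∑ i ∈ Finset.range n, ((i : ℝ) + 1)) *
            ∑ i ∈ Finset.range n, ((i : ℝ) + 1) * (b i - b (i + 1)) ^ 2 := by
            apply Finset.sum_sq_le_sum_mul_sum_of_sq_eq_mul
            · intro i _; positivity
            · intro i _; positivity
            · intro i _; ring
        _ ≤ (n * n) * lam ^ 2 := by
            apply mul_le_mul _ (h1 n) (Finset.sum_nonneg (fun i _ => by positivity)) (by positivity)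
            calc ∑ i ∈ Finset.range n, ((i : ℝ) + 1) ≤ ∑ i ∈ Finset.range n, (n : ℝ) :=
                  Finset.sum_le_sum (fun i hi => by
                    have := Finset.mem_range.1 hi
                    exact_mod_cast this)
              _ = n * n := by rw [Finset.sum_const, Finset.card_range, nsmul_eq_mul]
        _ = (n * lam) ^ 2 := by ring
    have c3 := cesaro_identity b n
    have c4 : |(n : ℝ) * b n| ≤ 2 * n * lam := by
      have : (n : ℝ) * b n = ∑ k ∈ Finset.range n, b k +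
          ∑ i ∈ Finset.range n, ((i : ℝ) + 1) * (b (i + 1) - b i) := by rw [← c3]; ring
      rw [this]
      exact (abs_add_le _ _).trans (by linarith)
    rw [abs_mul, abs_of_pos hnr] at c4
    have : (n : ℝ) * |b n| ≤ n * (2 * lam) := by linarith
    exact le_of_mul_le_mul_left this hnr

/-- Jensen's inequality for the powers. -/
theorem TT_pow_sq {S J : Type} [Fintype J] [Nonempty J] (τ : J → S → S) (F : S → ℝ) (n : ℕ)
    (x : S) : ((TT τ ^ n) F x) ^ 2 ≤ (TT τ ^ n) (fun y => F y ^ 2) x := by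
  induction n generalizing x with
  | zero => exact le_rfl
  | succ n ih =>
    rw [TT_pow_succ, TT_pow_succ]
    have hc : (0 : ℝ) < Fintype.card J := by exact_mod_cast Fintype.card_pos
    calc (TT τ ((TT τ ^ n) F) x) ^ 2
        = ((Fintype.card J : ℝ)⁻¹) ^ 2 * (∑ j, (TT τ ^ n) F (τ j x)) ^ 2 := by
          rw [TT_apply]; ring
      _ ≤ ((Fintype.card J : ℝ)⁻¹) ^ 2 *
            (Fintype.card J * ∑ j, ((TT τ ^ n) F (τ j x)) ^ 2) := by
          refine mul_le_mul_of_nonneg_left ?_ (by positivity)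
          have := sq_sum_le_card_mul_sum_sq (s := (Finset.univ : Finset J))
            (f := fun j => (TT τ ^ n) F (τ j x))
          rwa [Finset.card_univ] at this
      _ = TT τ (fun y => ((TT τ ^ n) F y) ^ 2) x := by
          rw [TT_apply]; field_simp
      _ ≤ _ := TT_mono τ ih x

variable {d : ℕ} {μ : Measure (Site d → ℝ)} [IsProbabilityMeasure μ]

/-- The square function. -/
theorem sq_lintegral [NeZero d] (hsh : ∀ x : Site d, MeasurePreserving (sft x) μ μ)
    (φ : (Site d → ℝ) → ℝ) (M : ℝ) (hφm : Measurable φ) (hφ : ∀ x, |φ x| ≤ M) :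
    ∫⁻ η, ∑' k : ℕ, ENNReal.ofReal (((k : ℝ) + 1) *
      ((TT tau ^ k) φ η - (TT tau ^ (k + 1)) φ η) ^ 2) ∂μ ≤ ENNReal.ofReal (∫ η, φ η ^ 2 ∂μ) := by
  have hτ : ∀ j : Dir d × Bool, MeasurePreserving (tau j) μ μ := tau_mp hsh
  have hτm : ∀ j : Dir d × Bool, Measurable (tau (d := d) j) := fun j => (hτ j).measurable
  have : Nonempty (Dir d × Bool) := ⟨((⟨0, Nat.pos_of_ne_zero (NeZero.ne d)⟩, true), true)⟩
  have hb : ∀ j x, |(TT tau ^ j) φ x| ≤ M := fun j x => TT_pow_bound tau φ M hφ j x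
  have hmem : MemLp φ 2 μ := MemLp.of_bound hφm.aestronglyMeasurable M
    (Eventually.of_forall (fun x => by rw [Real.norm_eq_abs]; exact hφ x))
  set Φ : Lp ℝ 2 μ := hmem.toLp φ with hΦ
  have hΦc : Φ =ᵐ[μ] φ := hmem.coeFn_toLp
  have hpow : ∀ n, (Top hsh ^ n) Φ =ᵐ[μ] (TT tau ^ n) φ := fun n => Top_pow_coe hsh hΦc n
  have hsq : ∀ k : ℕ, ∫ η, ((TT tau ^ k) φ η - (TT tau ^ (k + 1)) φ η) ^ 2 ∂μ =
      ‖(Top hsh ^ k) Φ - (Top hsh ^ (k + 1)) Φ‖ ^ 2 := by
    intro k
    rw [norm_sq_eq]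
    refine integral_congr_ae ?_
    filter_upwards [hpow k, hpow (k + 1), Lp.coeFn_sub ((Top hsh ^ k) Φ) ((Top hsh ^ (k + 1)) Φ)]
      with η e1 e2 e3
    rw [e3, Pi.sub_apply, e1, e2]
  have hmk : ∀ k : ℕ, Measurable (fun η => ENNReal.ofReal (((k : ℝ) + 1) *
      ((TT tau ^ k) φ η - (TT tau ^ (k + 1)) φ η) ^ 2)) := fun k =>
    ((((TT_pow_meas hτm hφm k).sub (TT_pow_meas hτm hφm (k + 1))).pow_const 2).const_mul
      _).ennreal_ofReal
  have hlk : ∀ k : ℕ, ∫⁻ η, ENNReal.ofReal (((k : ℝ) + 1) *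
      ((TT tau ^ k) φ η - (TT tau ^ (k + 1)) φ η) ^ 2) ∂μ =
      ENNReal.ofReal (((k : ℝ) + 1) * ‖(Top hsh ^ k) Φ - (Top hsh ^ (k + 1)) Φ‖ ^ 2) := by
    intro k
    rw [← hsq k, ← integral_const_mul, ofReal_integral_eq_lintegral_ofReal]
    · refine Integrable.of_bound ((((TT_pow_meas hτm hφm k).sub
        (TT_pow_meas hτm hφm (k + 1))).pow_const 2).const_mul _).aestronglyMeasurable
        (((k : ℝ) + 1) * (2 * M) ^ 2) (Eventually.of_forall (fun η => ?_))
      rw [Real.norm_eq_abs, abs_mul, abs_of_nonneg (by positivity : (0 : ℝ) ≤ (k : ℝ) + 1), abs_pow]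
      have h1 : |(TT tau ^ k) φ η - (TT tau ^ (k + 1)) φ η| ≤ 2 * M := by
        have h2 := hb k η
        have h3 := hb (k + 1) η
        have h4 := abs_sub ((TT tau ^ k) φ η) ((TT tau ^ (k + 1)) φ η)
        linarith
      gcongr
    · exact Eventually.of_forall (fun η => by positivity)
  have hnorm : ‖Φ‖ ^ 2 = ∫ η, φ η ^ 2 ∂μ := by
    rw [norm_sq_eq]
    refine integral_congr_ae ?_
    filter_upwards [hΦc] with η e
    rw [e]
  rw [lintegral_tsum (fun k => (hmk k).aemeasurable)]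
  simp only [hlk]
  rw [← hnorm]
  apply ENNReal.tsum_le_of_sum_range_le
  intro n
  rw [← ENNReal.ofReal_sum_of_nonneg (fun k _ => by positivity)]
  exact ENNReal.ofReal_le_ofReal (square_function (Top hsh) (Top_sym hsh) (Top_pos hsh)
    (Top_pos2 hsh) Φ n)

/-- The maximal inequality for the lazy walk. -/
theorem walk_max [NeZero d] (hsh : ∀ x : Site d, MeasurePreserving (sft x) μ μ)
    (φ : (Site d → ℝ) → ℝ) (M : ℝ) (hφm : Measurable φ) (hφ : ∀ x, |φ x| ≤ M) (lam : ℝ)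
    (hlam : 0 < lam) :
    μ {η | ∃ n, 2 * lam < |(TT tau ^ n) φ η|} ≤
      ENNReal.ofReal (2 * (∫ η, φ η ^ 2 ∂μ) / lam ^ 2) := by
  have hτ : ∀ j : Dir d × Bool, MeasurePreserving (tau j) μ μ := tau_mp hsh
  have hτm : ∀ j : Dir d × Bool, Measurable (tau (d := d) j) := fun j => (hτ j).measurable
  have : Nonempty (Dir d × Bool) := ⟨((⟨0, Nat.pos_of_ne_zero (NeZero.ne d)⟩, true), true)⟩
  set I := ∫ η, φ η ^ 2 ∂μ with hI
  have hI0 : 0 ≤ I := integral_nonneg (fun _ => sq_nonneg _)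
  have hl2 : 0 < lam ^ 2 := by positivity
  set B1 : Set (Site d → ℝ) := {η | ∃ n : ℕ, n * lam ^ 2 <
    ∑ j ∈ Finset.range n, (TT tau ^ j) (fun y => φ y ^ 2) η} with hB1
  set G : (Site d → ℝ) → ℝ≥0∞ := fun η => ∑' k : ℕ, ENNReal.ofReal (((k : ℝ) + 1) *
      ((TT tau ^ k) φ η - (TT tau ^ (k + 1)) φ η) ^ 2) with hG
  have hmk : ∀ k : ℕ, Measurable (fun η => ENNReal.ofReal (((k : ℝ) + 1) *
      ((TT tau ^ k) φ η - (TT tau ^ (k + 1)) φ η) ^ 2)) := fun k =>
    ((((TT_pow_meas hτm hφm k).sub (TT_pow_meas hτm hφm (k + 1))).pow_const 2).const_mul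
      _).ennreal_ofReal
  have hGm : Measurable G := Measurable.ennreal_tsum hmk
  set B2 : Set (Site d → ℝ) := {η | ENNReal.ofReal (lam ^ 2) ≤ G η} with hB2
  have hsub : {η | ∃ n, 2 * lam < |(TT tau ^ n) φ η|} ⊆ B1 ∪ B2 := by
    intro η hη
    by_contra hcon
    rw [Set.mem_union, not_or] at hcon
    obtain ⟨c1, c2⟩ := hcon
    obtain ⟨n, hn⟩ := hη
    have c1' : ∀ n : ℕ, ∑ j ∈ Finset.range n, (TT tau ^ j) (fun y => φ y ^ 2) η ≤ n * lam ^ 2 := by
      intro n
      by_contra hc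
      exact c1 ⟨n, not_le.1 hc⟩
    have c2' : G η < ENNReal.ofReal (lam ^ 2) := not_le.1 c2
    have hmax := det_max (fun k => (TT tau ^ k) φ η) lam hlam.le (fun n => ?_) (fun n => ?_) n
    · exact absurd hmax (not_le.2 hn)
    · have e1 : ENNReal.ofReal (∑ i ∈ Finset.range n, ((i : ℝ) + 1) *
          ((TT tau ^ i) φ η - (TT tau ^ (i + 1)) φ η) ^ 2) ≤ ENNReal.ofReal (lam ^ 2) := by
        rw [ENNReal.ofReal_sum_of_nonneg (fun i _ => by positivity)]
        exact (ENNReal.sum_le_tsum _).trans c2'.le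
      exact (ENNReal.ofReal_le_ofReal_iff hl2.le).1 e1
    · refine le_trans (Finset.sum_le_sum (fun j _ => ?_)) (c1' n)
      exact TT_pow_sq tau φ j η
  have hφ2 : ∀ x, |φ x ^ 2| ≤ M ^ 2 := by
    intro x
    rw [abs_pow]
    exact pow_le_pow_left₀ (abs_nonneg _) (hφ x) 2
  have m1 : μ B1 ≤ ENNReal.ofReal (I / lam ^ 2) := by
    refine maximal hτ (fun y => φ y ^ 2) (hφm.pow_const 2) ?_ (fun x => sq_nonneg _) (lam ^ 2) hl2
    exact Integrable.of_bound (hφm.pow_const 2).aestronglyMeasurable (M ^ 2)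
      (Eventually.of_forall (fun x => by rw [Real.norm_eq_abs]; exact hφ2 x))
  have m2 : μ B2 ≤ ENNReal.ofReal (I / lam ^ 2) := by
    have h1 : μ B2 ≤ (∫⁻ η, G η ∂μ) / ENNReal.ofReal (lam ^ 2) :=
      meas_ge_le_lintegral_div hGm.aemeasurable (by
        rw [ne_eq, ENNReal.ofReal_eq_zero, not_le]; exact hl2) ENNReal.ofReal_ne_top
    refine h1.trans ?_
    rw [ENNReal.ofReal_div_of_pos hl2]
    exact ENNReal.div_le_div_right (sq_lintegral hsh φ M hφm hφ) _
  calc μ {η | ∃ n, 2 * lam < |(TT tau ^ n) φ η|} ≤ μ (B1 ∪ B2) := measure_mono hsub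
    _ ≤ μ B1 + μ B2 := measure_union_le _ _
    _ ≤ ENNReal.ofReal (I / lam ^ 2) + ENNReal.ofReal (I / lam ^ 2) := add_le_add m1 m2
    _ = ENNReal.ofReal (2 * I / lam ^ 2) := by
        rw [← ENNReal.ofReal_add (by positivity) (by positivity)]
        congr 1; ring

end Pool.Agent.Y202.EA
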