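import Mathlib
import Pool.Agent.Y202.EA.Max

set_option autoImplicit false
set_option linter.unusedSectionVars false
set_option linter.unusedVariables false
set_option linter.deprecated false
open MeasureTheory ProbabilityTheory Filter Topology
open scoped BoundedContinuousFunction ENNReal
open Pool.Agent.H563R3.EA

/-! The maximal inequality for the edge averaging process with a bounded profile. -/

namespace Pool.Agent.Y202.EA

variable {d : ℕ} {Ω : Type} {mΩ : MeasurableSpace Ω}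
variable {P : Measure Ω} [IsProbabilityMeasure P] {F : Filtration ℝ mΩ}
  {N : Edge d → ℝ → Ω → ℕ} {f : ℝ → Ω → Site d → ℝ} {M : ℝ}

/-- The integral of the variance. -/
theorem VV_int' [NeZero d] (h : Proc P F N f M) (hs : Stationary P (f 0)) (T : ℝ) (hT : 0 ≤ T) :
    ∫ s in (0 : ℝ)..T, VV P f M h.bdd s ≤ ∫ ω, f 0 ω 0 * f 0 ω 0 ∂P - ∫ ω, f T ω 0 * f T ω 0 ∂P := by
  have key := main_bound' (phi P f M h.bdd 0) (fun s hs' => ?_)
    (fun s hs' a => ?_) T hT
  · rw [← phi_eq h T hT, phi_apply h 0 le_rfl, phi_apply h T hT] at key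
    exact key
  · refine ⟨fun x u v => sgL_sh h hs x s u v, fun u v => ?_⟩
    rw [← phi_eq h s hs', phi_apply h s hs', phi_apply h s hs']
    simp only [mul_comm]
  · unfold GG
    have e1 : sg (opL d) s (phi P f M h.bdd 0) (0, 0) =
        (1 / 2) * (phi P f M h.bdd s (0, 0) + phi P f M h.bdd s (step a, step a)) := by
      have h1 := sgL_sh h hs (step a) s 0 0
      rw [zero_add] at h1
      rw [phi_eq h s hs', h1]; ring
    have e2 : sg (opL d) s (phi P f M h.bdd 0) (0, 0) - sg (opL d) s (phi P f M h.bdd 0) (step a, 0) =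
        (1 / 2) * ∫ ω, (f s ω 0 - f s ω (step a)) ^ 2 ∂P := by
      rw [e1, ← phi_eq h s hs', phi_apply h s hs', phi_apply h s hs', phi_apply h s hs']
      have e3 : ∀ ω, (f s ω 0 - f s ω (step a)) ^ 2 = (f s ω 0 * f s ω 0 +
          f s ω (step a) * f s ω (step a)) - 2 * (f s ω (step a) * f s ω 0) := by intro ω; ring
      simp only [e3]
      have j1 : Integrable (fun ω => f s ω 0 * f s ω 0 + f s ω (step a) * f s ω (step a)) P :=
        (h.int2 s hs' 0 0).add (h.int2 s hs' _ _)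
      rw [integral_sub j1 ((h.int2 s hs' _ _).const_mul 2), integral_const_mul,
        integral_add (h.int2 s hs' 0 0) (h.int2 s hs' _ _)]
      ring
    rw [e2]
    exact mul_nonneg (by norm_num) (integral_nonneg (fun ω => sq_nonneg _))

theorem sq_int (h : Proc P F N f M) : 0 ≤ ∫ ω, f 0 ω 0 ^ 2 ∂P := integral_nonneg (fun _ => sq_nonneg _)

theorem VV_int'' [NeZero d] (h : Proc P F N f M) (hs : Stationary P (f 0)) (T : ℝ) (hT : 0 ≤ T) :
    ∫ s in (0 : ℝ)..T, VV P f M h.bdd s ≤ ∫ ω, f 0 ω 0 ^ 2 ∂P := by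
  have h1 := VV_int' h hs T hT
  have h2 : 0 ≤ ∫ ω, f T ω 0 * f T ω 0 ∂P := integral_nonneg (fun _ => mul_self_nonneg _)
  have h3 : ∫ ω, f 0 ω 0 ^ 2 ∂P = ∫ ω, f 0 ω 0 * f 0 ω 0 ∂P := by
    simp only [sq]
  rw [h3]; linarith

/-- Measurability of the initial profile. -/
theorem ini_meas (h : Proc P F N f M) : Measurable (f 0) := by
  rw [measurable_pi_iff]; exact fun v => h.meas 0 v le_rfl

theorem law_shift (h : Proc P F N f M) (hs : Stationary P (f 0)) (x : Site d) :
    MeasurePreserving (sft x) (P.map (f 0)) (P.map (f 0)) := by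
  refine ⟨sft_meas x, ?_⟩
  rw [Measure.map_map (sft_meas x) (ini_meas h)]
  exact hs x

/-- The smoothed profile is controlled by the averages of the lazy walk. -/
theorem YY_le [NeZero d] (h : Proc P F N f M) (ω : Ω) (v : Site d) (lam : ℝ)
    (hl : ∀ n, |(TT tau ^ n) (clip M) (sft v (f 0 ω))| ≤ lam) (t : ℝ) (ht : 0 ≤ t) :
    |YY f M h.bdd t ω v| ≤ lam := by
  have hc := card_pos (d := d)
  have hbd : ∀ v, |ini f M h.bdd ω v| ≤ M := fun v => h.bdd 0 ω v le_rfl
  have hseq : ∀ n : ℕ, (opT d ^ n) (ini f M h.bdd ω) v = (TT tau ^ n) (clip M) (sft v (f 0 ω)) :=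
    fun n => opT_pow (ini f M h.bdd ω) M hbd n v
  set x := t * Fintype.card (Dir d) with hx
  have hx0 : 0 ≤ x := by positivity
  have h1 := sgA_series (ini f M h.bdd ω) v x
  have h2 : x / Fintype.card (Dir d) = t := by rw [hx]; field_simp
  rw [h2] at h1
  have hw : HasSum (fun n : ℕ => Real.exp (-x) * (x ^ n / n.factorial)) 1 := by
    have h3 : HasSum (fun n : ℕ => x ^ n / n.factorial) (Real.exp x) := by
      rw [Real.exp_eq_exp_ℝ]
      exact NormedSpace.expSeries_div_hasSum_exp x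
    have h4 := h3.mul_left (Real.exp (-x))
    rwa [← Real.exp_add, neg_add_cancel, Real.exp_zero] at h4
  have hw2 := hw.mul_right lam
  rw [one_mul] at hw2
  have hle : ∀ n : ℕ, |Real.exp (-x) * (x ^ n / n.factorial * (opT d ^ n) (ini f M h.bdd ω) v)| ≤
      Real.exp (-x) * (x ^ n / n.factorial) * lam := by
    intro n
    rw [hseq, ← mul_assoc, abs_mul, abs_of_nonneg (by positivity :
      (0 : ℝ) ≤ Real.exp (-x) * (x ^ n / n.factorial))]
    exact mul_le_mul_of_nonneg_left (hl n) (by positivity)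
  rw [abs_le]
  constructor
  · have h5 := hasSum_le (fun n => neg_le_of_abs_le (hle n)) hw2.neg h1
    exact h5
  · exact hasSum_le (fun n => le_of_abs_le (hle n)) h1 hw2

/-- The maximal inequality for the smoothed profile. -/
theorem YY_max [NeZero d] (h : Proc P F N f M) (hs : Stationary P (f 0)) (v : Site d) (lam : ℝ)
    (hlam : 0 < lam) :
    P {ω | ∃ t, 0 ≤ t ∧ 2 * lam < |YY f M h.bdd t ω v|} ≤
      ENNReal.ofReal (2 * (∫ ω, f 0 ω 0 ^ 2 ∂P) / lam ^ 2) := by
  have hm := ini_meas h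
  have hpr : IsProbabilityMeasure (P.map (f 0)) := Measure.isProbabilityMeasure_map hm.aemeasurable
  have hsh := law_shift h hs
  have hτm : ∀ j : Dir d × Bool, Measurable (tau (d := d) j) := fun j => (tau_mp hsh j).measurable
  have hM := h.M_nonneg
  have h1 := walk_max hsh (clip M) M (clip_meas M) (clip_le M hM) lam hlam
  set W : Set (Site d → ℝ) := {η | ∃ n, 2 * lam < |(TT tau ^ n) (clip M) η|} with hW
  have hWm : MeasurableSet W := by
    have : W = ⋃ n : ℕ, {η | 2 * lam < |(TT tau ^ n) (clip M) η|} := by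
      ext η; simp [hW]
    rw [this]
    exact MeasurableSet.iUnion (fun n => measurableSet_lt measurable_const
      (TT_pow_meas hτm (clip_meas M) n).abs)
  have h2 : ∫ η, clip M η ^ 2 ∂(P.map (f 0)) = ∫ ω, f 0 ω 0 ^ 2 ∂P := by
    rw [integral_map hm.aemeasurable ((clip_meas M).pow_const 2).aestronglyMeasurable]
    refine integral_congr_ae (Eventually.of_forall (fun ω => ?_))
    show clip M (f 0 ω) ^ 2 = f 0 ω 0 ^ 2
    unfold clip
    have hb := abs_le.1 (h.bdd 0 ω 0 le_rfl)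
    rw [min_eq_right hb.2, max_eq_right hb.1]
  rw [h2] at h1
  have hsub : {ω | ∃ t, 0 ≤ t ∧ 2 * lam < |YY f M h.bdd t ω v|} ⊆ f 0 ⁻¹' (sft v ⁻¹' W) := by
    rintro ω ⟨t, ht, hlt⟩
    by_contra hcon
    have hall : ∀ n, |(TT tau ^ n) (clip M) (sft v (f 0 ω))| ≤ 2 * lam := by
      intro n
      by_contra hc
      exact hcon ⟨n, not_le.1 hc⟩
    exact absurd (YY_le h ω v _ hall t ht) (not_le.2 hlt)
  calc P {ω | ∃ t, 0 ≤ t ∧ 2 * lam < |YY f M h.bdd t ω v|} ≤ P (f 0 ⁻¹' (sft v ⁻¹' W)) :=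
        measure_mono hsub
    _ = (P.map (f 0)) (sft v ⁻¹' W) := by rw [Measure.map_apply hm (sft_meas v hWm)]
    _ = (P.map (f 0)) W := (hsh v).measure_preimage hWm.nullMeasurableSet
    _ ≤ _ := h1

/-- First passage of the process itself. -/
theorem first_passage' (h : Proc P F N f M) (v : Site d) (lam θ η : ℝ)
    (hθ : 0 < θ) (hθδ : θ ≤ 1) (hη : 0 < η) :
    P {ω | ∃ j : ℕ, lam < |f (j * η) ω v|} *
      ENNReal.ofReal (Real.exp (-1) ^ (Finset.univ.image (ed v)).card) ≤
    P {ω | ∃ i : ℕ, lam < |f (θ + i) ω v|} := by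
  classical
  set s : ℕ → ℝ := fun j => j * η with hs
  have hs0 : ∀ j, 0 ≤ s j := fun j => by simp only [hs]; positivity
  set S : Finset (Edge d) := Finset.univ.image (ed v) with hS
  set A : ℕ → Set Ω := fun j => {ω | lam < |f (s j) ω v|} with hA
  set τ : ℕ → Set Ω := fun j => A j ∩ ⋂ i ∈ Finset.range j, (A i)ᶜ with hτ
  set U : ℕ → Set Ω := fun j => (incr N (s j) (s j + 1)) ⁻¹' (Zev S) with hU
  set H : Set Ω := {ω | ∃ i : ℕ, lam < |f (θ + i) ω v|} with hH
  have hAF : ∀ i j, i ≤ j → MeasurableSet[F (s j)] (A i) := by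
    intro i j hij
    have hle : s i ≤ s j := by
      simp only [hs]
      have : (i : ℝ) ≤ j := by exact_mod_cast hij
      nlinarith
    have h1 : Measurable[F (s j)] (fun ω => f (s i) ω v) :=
      (h.adapted (s i) v (hs0 i)).mono (F.mono hle) le_rfl
    have h1 : Measurable[F (s j)] (fun ω => |f (s i) ω v|) := measurable_norm.comp h1
    exact h1 measurableSet_Ioi
  have hτF : ∀ j, MeasurableSet[F (s j)] (τ j) := by
    intro j
    refine MeasurableSet.inter (hAF j j le_rfl) ?_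
    refine Finset.measurableSet_biInter _ (fun i hi => ?_)
    exact (hAF i j (Finset.mem_range.1 hi).le).compl
  have hτm : ∀ j, MeasurableSet (τ j) := fun j => F.le _ _ (hτF j)
  have hincm : ∀ j, Measurable (incr N (s j) (s j + 1)) := by
    intro j
    rw [measurable_pi_iff]
    intro e
    have h1 : Measurable (N e (s j + 1)) :=
      (h.clocks.adapted e _ (by have := hs0 j; linarith)).mono (F.le _) le_rfl
    have h2 : Measurable (N e (s j)) := (h.clocks.adapted e _ (hs0 j)).mono (F.le _) le_rfl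
    exact (Measurable.of_discrete (f := fun q : ℕ × ℕ => q.1 - q.2)).comp (h1.prodMk h2)
  have hUm : ∀ j, MeasurableSet (U j) := fun j => hincm j (measurable_Zev S)
  have hUp : ∀ j, P (U j) = ENNReal.ofReal (Real.exp (-1) ^ S.card) := by
    intro j
    have hlaw := h.clocks.law (s j) (s j + 1) (hs0 j) (by linarith)
    rw [add_sub_cancel_left] at hlaw
    have h1 : P (U j) = (P.map (incr N (s j) (s j + 1))) (Zev S) := by
      rw [Measure.map_apply (hincm j) (measurable_Zev S)]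
    have h2 : P.map (incr N (s j) (s j + 1)) =
      Measure.infinitePi (fun _ : Edge d => poissonMeasure (Real.toNNReal 1)) := hlaw
    rw [h1, h2, ← prob_Zev S 1 zero_le_one, ofReal_measureReal]
  have hind : ∀ j, P (τ j ∩ U j) = P (τ j) * P (U j) := by
    intro j
    have h1 := h.clocks.indep (s j) (s j + 1) (hs0 j) (by linarith)
    rw [Indep_iff] at h1
    exact h1 (τ j) (U j) (hτF j) ⟨Zev S, measurable_Zev S, rfl⟩
  have hdis : Pairwise (fun i j => Disjoint (τ i) (τ j)) := by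
    have key : ∀ i j, i < j → Disjoint (τ i) (τ j) := by
      intro i j hij
      rw [Set.disjoint_left]
      rintro ω ⟨h1, _⟩ ⟨_, h2⟩
      have := Set.mem_iInter₂.1 h2 i (Finset.mem_range.2 hij)
      exact this h1
    intro i j hij
    rcases lt_or_gt_of_ne hij with h1 | h1
    · exact key i j h1
    · exact (key j i h1).symm
  have hunion : {ω | ∃ j : ℕ, lam < |f (j * η) ω v|} = ⋃ j, τ j := by
    ext ω
    simp only [Set.mem_ofPred_eq, Set.mem_iUnion]
    constructor
    · intro hex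
      refine ⟨Nat.find hex, Nat.find_spec hex, ?_⟩
      refine Set.mem_iInter₂.2 (fun i hi => ?_)
      exact Nat.find_min hex (Finset.mem_range.1 hi)
    · rintro ⟨j, hj, _⟩
      exact ⟨j, hj⟩
  have hincl : (⋃ j, (τ j ∩ U j) : Set Ω) ≤ᵐ[P] H := by
    filter_upwards [h.good] with ω hg hω
    obtain ⟨j, ⟨hj, _⟩, hUj⟩ := Set.mem_iUnion.1 hω
    have hj' : lam < |f (s j) ω v| := hj
    set q := s j - θ with hq
    have hfl1 := Int.floor_le q
    have hfl2 := Int.lt_floor_add_one q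
    have hq1 : -1 ≤ q := by
      have := hs0 j
      rw [hq]; linarith
    have hfl3 : -1 ≤ ⌊q⌋ := by
      rw [Int.le_floor]
      exact_mod_cast hq1
    obtain ⟨i, hi⟩ : ∃ i : ℕ, (i : ℤ) = ⌊q⌋ + 1 := ⟨(⌊q⌋ + 1).toNat, by omega⟩
    have hir : (i : ℝ) = (⌊q⌋ : ℝ) + 1 := by exact_mod_cast hi
    have hlow : s j < θ + i := by linarith
    have hup : θ + i ≤ s j + 1 := by linarith
    refine ⟨i, ?_⟩
    have hf : f (θ + i) ω v = f (s j) ω v := by
      refine no_ring hg v (s j) (θ + i) (hs0 j) hlow.le (fun e he => ?_)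
      obtain ⟨a, rfl⟩ := (touches_iff e v).1 he
      have h1 : incr N (s j) (s j + 1) ω (ed v a) = 0 := by
        have := hUj (ed v a) (by
          rw [hS]; exact Finset.mem_coe.2 (Finset.mem_image_of_mem _ (Finset.mem_univ _)))
        simpa using this
      have h2 : N (ed v a) (s j + 1) ω - N (ed v a) (s j) ω = 0 := h1
      have h3 := hg.mono (ed v a) (θ + i) (s j + 1) (by have := hs0 j; linarith) hup
      omega
    rw [hf]
    exact hj'
  calc P {ω | ∃ j : ℕ, lam < |f (j * η) ω v|} *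
        ENNReal.ofReal (Real.exp (-1) ^ S.card)
      = ∑' j, P (τ j ∩ U j) := by
        rw [hunion, measure_iUnion hdis hτm, ← ENNReal.tsum_mul_right]
        congr 1
        funext j
        rw [hind, hUp]
    _ = P (⋃ j, (τ j ∩ U j)) := by
        rw [measure_iUnion]
        · intro i j hij
          exact (hdis hij).mono Set.inter_subset_left Set.inter_subset_left
        · exact fun j => (hτm j).inter (hUm j)
    _ ≤ P H := measure_mono_ae hincl

/-- Right continuity of the paths: they are locally constant to the right. -/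
theorem right_const {ω : Ω} (hg : Good N f ω) (v : Site d) (t : ℝ) (ht : 0 ≤ t) :
    ∃ η, 0 < η ∧ ∀ s, t < s → s < t + η → f s ω v = f t ω v := by
  have h1 : ∀ᶠ s in 𝓝[>] t, ∀ a : Dir d, N (ed v a) s ω = N (ed v a) t ω :=
    eventually_all.2 (fun a => hg.right (ed v a) t ht)
  rw [eventually_nhdsWithin_iff, Metric.eventually_nhds_iff] at h1
  obtain ⟨η1, hη1, h1⟩ := h1
  refine ⟨η1, hη1, fun s hs1 hs2 => ?_⟩
  refine hg.keep v t s ht hs1.le (fun e he => ?_)
  obtain ⟨a, rfl⟩ := (touches_iff e v).1 he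
  exact h1 (y := s) (by rw [Real.dist_eq, abs_of_pos (by linarith)]; linarith) hs1 a

theorem escape' (h : Proc P F N f M) (v : Site d) (lam θ : ℝ)
    (hθ : 0 < θ) (hθδ : θ ≤ 1) :
    P {ω | ∃ t, 0 ≤ t ∧ lam < |f t ω v|} *
      ENNReal.ofReal (Real.exp (-1) ^ (Finset.univ.image (ed v)).card) ≤
    P {ω | ∃ i : ℕ, lam < |f (θ + i) ω v|} := by
  classical
  set E : ℕ → Set Ω := fun n => {ω | ∃ j : ℕ, lam < |f (j * (1 / 2) ^ n) ω v|} with hE
  have hmono : Monotone E := by
    apply monotone_nat_of_le_succ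
    rintro n ω ⟨j, hj⟩
    refine ⟨2 * j, ?_⟩
    have : ((2 * j : ℕ) : ℝ) * (1 / 2) ^ (n + 1) = j * (1 / 2) ^ n := by
      push_cast; rw [pow_succ]; ring
    rw [this]; exact hj
  have hsub : {ω | ∃ t, 0 ≤ t ∧ lam < |f t ω v|} ≤ᵐ[P] ⋃ n, E n := by
    filter_upwards [h.good] with ω hg hω
    obtain ⟨t, ht0, ht⟩ := hω
    obtain ⟨η, hη, hη2⟩ := right_const hg v t ht0
    obtain ⟨n, hn⟩ := exists_pow_lt_of_lt_one hη (show (1 / 2 : ℝ) < 1 by norm_num)
    have hp : (0 : ℝ) < (1 / 2) ^ n := by positivity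
    set q := t / (1 / 2) ^ n with hq
    have hq0 : 0 ≤ q := div_nonneg ht0 hp.le
    have hfl1 := Nat.floor_le hq0
    have hfl2 := Nat.lt_floor_add_one q
    have hqp : q * (1 / 2) ^ n = t := by rw [hq]; field_simp
    refine Set.mem_iUnion.2 ⟨n, ⌊q⌋₊ + 1, ?_⟩
    rw [hη2]
    · exact ht
    · have : q * (1 / 2) ^ n < ((⌊q⌋₊ + 1 : ℕ) : ℝ) * (1 / 2) ^ n := by
        apply mul_lt_mul_of_pos_right _ hp
        push_cast; exact hfl2
      linarith
    · have : ((⌊q⌋₊ + 1 : ℕ) : ℝ) * (1 / 2) ^ n ≤ (q + 1) * (1 / 2) ^ n := by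
        apply mul_le_mul_of_nonneg_right _ hp.le
        push_cast; linarith
      nlinarith
  calc P {ω | ∃ t, 0 ≤ t ∧ lam < |f t ω v|} *
      ENNReal.ofReal (Real.exp (-1) ^ (Finset.univ.image (ed v)).card)
      ≤ P (⋃ n, E n) * ENNReal.ofReal (Real.exp (-1) ^ (Finset.univ.image (ed v)).card) := by
        exact mul_le_mul_left (measure_mono_ae hsub) _
    _ = ⨆ n, P (E n) * ENNReal.ofReal (Real.exp (-1) ^ (Finset.univ.image (ed v)).card) := by
        rw [hmono.measure_iUnion, ENNReal.iSup_mul]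
    _ ≤ _ := iSup_le (fun n => first_passage' h v lam θ ((1 / 2) ^ n) hθ hθδ (by positivity))

theorem card_ed (v : Site d) : (Finset.univ.image (ed v)).card = 2 * d := by
  classical
  rw [Finset.card_image_of_injective _ (ed_injective v), Finset.card_univ, Fintype.card_prod,
    Fintype.card_fin, Fintype.card_bool]
  ring

/-- The maximal inequality for processes which are bounded everywhere. -/
theorem proc_max [NeZero d] (h : Proc P F N f M) (hs : Stationary P (f 0)) (v : Site d) (lam : ℝ)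
    (hlam : 0 < lam) :
    P {ω | ∃ t, 0 ≤ t ∧ lam < |f t ω v|} ≤
      ENNReal.ofReal (36 * Real.exp (2 * d) * (∫ ω, f 0 ω 0 ^ 2 ∂P) / lam ^ 2) := by
  classical
  set I := ∫ ω, f 0 ω 0 ^ 2 ∂P with hI
  have hI0 : 0 ≤ I := sq_int h
  obtain ⟨θ, hθ, hθ1, hsum⟩ := exists_grid' (VV P f M h.bdd) (VV_continuous h)
    (fun t ht => VV_nonneg h hs t ht) I (fun T hT => VV_int'' h hs T hT)
  have htj : ∀ j : ℕ, 0 ≤ θ + (j : ℝ) := fun j => by positivity
  have hesc := escape' h v lam θ hθ hθ1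
  rw [card_ed] at hesc
  have hl2 : 0 < (lam / 2) ^ 2 := by positivity
  -- the fluctuations on the grid
  have hgrid : P {ω | ∃ i : ℕ, lam / 2 < |gg f M h.bdd (θ + i) ω v|} ≤
      ENNReal.ofReal (I / (lam / 2) ^ 2) := by
    have h1 : {ω | ∃ i : ℕ, lam / 2 < |gg f M h.bdd (θ + i) ω v|} =
        ⋃ i : ℕ, {ω | lam / 2 < |gg f M h.bdd (θ + i) ω v|} := by ext ω; simp
    rw [h1]
    refine (measure_iUnion_le _).trans ?_
    have h2 : ∀ i : ℕ, P {ω | lam / 2 < |gg f M h.bdd (θ + i) ω v|} ≤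
        ENNReal.ofReal (VV P f M h.bdd (θ + i)) / ENNReal.ofReal ((lam / 2) ^ 2) := by
      intro i
      have hm : Measurable (fun ω => ENNReal.ofReal ((gg f M h.bdd (θ + i) ω v) ^ 2)) :=
        ((gg_meas h _ (htj i) v).pow_const 2).ennreal_ofReal
      have h3 : ∫⁻ ω, ENNReal.ofReal ((gg f M h.bdd (θ + i) ω v) ^ 2) ∂P =
          ENNReal.ofReal (VV P f M h.bdd (θ + i)) := by
        rw [← gg_sq' h hs _ (htj i) v, ofReal_integral_eq_lintegral_ofReal]
        · refine Integrable.of_bound ((gg_meas h _ (htj i) v).pow_const 2).aestronglyMeasurable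
            ((2 * M) ^ 2) (Eventually.of_forall (fun ω => ?_))
          rw [Real.norm_eq_abs, abs_pow]
          exact pow_le_pow_left₀ (abs_nonneg _) (gg_bdd h _ (htj i) ω v) 2
        · exact Eventually.of_forall (fun ω => sq_nonneg _)
      rw [← h3]
      refine le_trans (measure_mono ?_) (meas_ge_le_lintegral_div hm.aemeasurable (by
        rw [ne_eq, ENNReal.ofReal_eq_zero, not_le]; exact hl2) ENNReal.ofReal_ne_top)
      intro ω hω
      have h4 : lam / 2 < |gg f M h.bdd (θ + i) ω v| := hω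
      show ENNReal.ofReal ((lam / 2) ^ 2) ≤ ENNReal.ofReal ((gg f M h.bdd (θ + i) ω v) ^ 2)
      apply ENNReal.ofReal_le_ofReal
      rw [← sq_abs (gg f M h.bdd (θ + i) ω v)]
      exact pow_le_pow_left₀ (by positivity) h4.le 2
    refine (ENNReal.tsum_le_tsum h2).trans ?_
    have e : ∀ (a : ℕ → ℝ≥0∞) (c : ℝ≥0∞), ∑' i, a i / c = (∑' i, a i) / c := by
      intro a c
      simp only [div_eq_mul_inv, ENNReal.tsum_mul_right]
    rw [e, ENNReal.ofReal_div_of_pos hl2]
    exact ENNReal.div_le_div_right hsum _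
  have hYY := YY_max h hs v (lam / 4) (by positivity)
  have hsub : {ω | ∃ i : ℕ, lam < |f (θ + i) ω v|} ⊆
      {ω | ∃ i : ℕ, lam / 2 < |gg f M h.bdd (θ + i) ω v|} ∪
      {ω | ∃ t, 0 ≤ t ∧ 2 * (lam / 4) < |YY f M h.bdd t ω v|} := by
    rintro ω ⟨i, hi⟩
    by_contra hcon
    rw [Set.mem_union, not_or] at hcon
    obtain ⟨c1, c2⟩ := hcon
    have d1 : |gg f M h.bdd (θ + i) ω v| ≤ lam / 2 := by
      by_contra hc
      exact c1 ⟨i, not_le.1 hc⟩
    have d2 : |YY f M h.bdd (θ + i) ω v| ≤ 2 * (lam / 4) := by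
      by_contra hc
      exact c2 ⟨θ + i, htj i, not_le.1 hc⟩
    have e : f (θ + i) ω v = gg f M h.bdd (θ + i) ω v + YY f M h.bdd (θ + i) ω v := by
      unfold gg; ring
    have := abs_add_le (gg f M h.bdd (θ + i) ω v) (YY f M h.bdd (θ + i) ω v)
    rw [← e] at this
    linarith
  have htot : P {ω | ∃ i : ℕ, lam < |f (θ + i) ω v|} ≤ ENNReal.ofReal (36 * I / lam ^ 2) := by
    refine (measure_mono hsub).trans ((measure_union_le _ _).trans
      ((add_le_add hgrid hYY).trans (le_of_eq ?_)))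
    rw [← ENNReal.ofReal_add (by positivity) (by positivity)]
    congr 1
    field_simp
    ring
  have hq : ENNReal.ofReal (Real.exp (-1) ^ (2 * d)) * ENNReal.ofReal (Real.exp (2 * d)) = 1 := by
    rw [← ENNReal.ofReal_mul (by positivity), ← Real.exp_nat_mul, ← Real.exp_add]
    push_cast
    rw [show (2 * (d : ℝ) * -1 + 2 * d) = 0 by ring, Real.exp_zero, ENNReal.ofReal_one]
  calc P {ω | ∃ t, 0 ≤ t ∧ lam < |f t ω v|}
      = P {ω | ∃ t, 0 ≤ t ∧ lam < |f t ω v|} * ENNReal.ofReal (Real.exp (-1) ^ (2 * d)) *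
        ENNReal.ofReal (Real.exp (2 * d)) := by rw [mul_assoc, hq, mul_one]
    _ ≤ ENNReal.ofReal (36 * I / lam ^ 2) * ENNReal.ofReal (Real.exp (2 * d)) :=
        mul_le_mul_left (hesc.trans htot) _
    _ = _ := by
        rw [← ENNReal.ofReal_mul (by positivity)]
        congr 1
        ring

end Pool.Agent.Y202.EA
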