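import Mathlib
import Pool.Agent.Y202.EA.Passage
import Pool.Agent.Y202.EA.Ident

set_option autoImplicit false
set_option linter.unusedSectionVars false
set_option linter.unusedVariables false
set_option linter.deprecated false
open MeasureTheory ProbabilityTheory Filter Topology
open scoped BoundedContinuousFunction ENNReal
open Pool.Agent.H563R3.EA

/-! Bounded profiles: the limit, and the maximal inequality. -/

namespace Pool.Agent.Y202.EA

variable {d : ℕ} {Ω : Type} {mΩ : MeasurableSpace Ω}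
variable {P : Measure Ω} [IsProbabilityMeasure P] {F : Filtration ℝ mΩ}
  {N : Edge d → ℝ → Ω → ℕ} {f : ℝ → Ω → Site d → ℝ} {M : ℝ}

/-- Two orbits with the same values. -/
theorem TT_transfer {η ζ : Site d → ℝ} {φ φ' : (Site d → ℝ) → ℝ}
    (h : ∀ v, φ (sft v η) = φ' (sft v ζ)) (n : ℕ) :
    ∀ v, (TT tau ^ n) φ (sft v η) = (TT tau ^ n) φ' (sft v ζ) := by
  induction n with
  | zero => exact h
  | succ n ih =>
    intro v
    rw [TT_pow_succ, TT_pow_succ, TT_apply, TT_apply]
    congr 1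
    refine Finset.sum_congr rfl (fun j _ => ?_)
    unfold tau
    split_ifs
    · rw [sft_sft, sft_sft]; exact ih _
    · exact ih v

/-- The limit of a bounded process. -/
theorem proc_limit [NeZero d] (h : Proc P F N f M) (hs : Stationary P (f 0))
    {g : Ω → Site d → ℝ} (hg : Measurable g) (hgs : Stationary P g) (ψ : ℝ → ℝ)
    (hψ : Measurable ψ) (B : ℝ) (hψB : ∀ x, |ψ x| ≤ B)
    (h0 : ∀ᵐ ω ∂P, ∀ v, f 0 ω v = ψ (g ω v)) :
    ∀ᵐ ω ∂P, ∀ v : Site d, Tendsto (fun t : ℝ => f t ω v) atTop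
      (𝓝 ((P[fun ω => ψ (g ω 0) | (invSets d).comap g]) ω)) := by
  set μ := P.map g with hμ
  have : IsProbabilityMeasure μ := Measure.isProbabilityMeasure_map hg.aemeasurable
  have hsh : ∀ x : Site d, MeasurePreserving (sft x) μ μ := by
    intro x
    refine ⟨sft_meas x, ?_⟩
    rw [hμ, Measure.map_map (sft_meas x) hg]
    exact hgs x
  set φ : (Site d → ℝ) → ℝ := fun η => ψ (η 0) with hφ
  have hφm : Measurable φ := hψ.comp (measurable_pi_apply 0)
  obtain ⟨L, hLm, hLb, hLinv, hLt, hLint⟩ := walk_limit hsh φ B hφm (fun _ => hψB _)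
  have hce := limit_condExp hg φ L B hφm (fun _ => hψB _) hLm hLb hLinv hLint
  have h2 : ∀ᵐ η ∂μ, ∀ v : Site d, Tendsto (fun n => (TT tau ^ n) φ (sft v η)) atTop
      (𝓝 (L η)) := by
    rw [ae_all_iff]
    intro v
    have h3 := (hsh v).quasiMeasurePreserving.ae hLt
    filter_upwards [h3] with η e
    rw [hLinv] at e
    exact e
  have h3 : ∀ᵐ ω ∂P, ∀ v : Site d, Tendsto (fun n => (TT tau ^ n) φ (sft v (g ω)))
      atTop (𝓝 (L (g ω))) := ae_of_ae_map hg.aemeasurable h2
  have hM := h.M_nonneg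
  have hgg : ∀ᵐ ω ∂P, ∀ v : Site d, Tendsto (fun t : ℝ => gg f M h.bdd t ω v) atTop (𝓝 0) :=
    ae_all_iff.2 (fun v => gg_tendsto h hs v)
  filter_upwards [h3, h0, hce, hgg] with ω hω h0ω hceω hggω v
  have hbd : ∀ v, |ini f M h.bdd ω v| ≤ M := fun v => h.bdd 0 ω v le_rfl
  have htr : ∀ n, (TT tau ^ n) (clip M) (sft v (f 0 ω)) = (TT tau ^ n) φ (sft v (g ω)) := by
    intro n
    refine TT_transfer (fun u => ?_) n v
    show max (-M) (min M (f 0 ω (0 + u))) = ψ (g ω (0 + u))
    have hb := abs_le.1 (h.bdd 0 ω (0 + u) le_rfl)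
    rw [min_eq_right hb.2, max_eq_right hb.1]
    exact h0ω _
  have hseq : ∀ n : ℕ, (opT d ^ n) (ini f M h.bdd ω) v = (TT tau ^ n) φ (sft v (g ω)) :=
    fun n => (opT_pow (ini f M h.bdd ω) M hbd n v).trans (htr n)
  have hb : Tendsto (fun n => (opT d ^ n) (ini f M h.bdd ω) v) atTop (𝓝 (L (g ω))) :=
    (hω v).congr (fun n => (hseq n).symm)
  have hne : Nonempty (Dir d × Bool) := ⟨((⟨0, Nat.pos_of_ne_zero (NeZero.ne d)⟩, true), true)⟩
  have hbM : ∀ n, |(opT d ^ n) (ini f M h.bdd ω) v| ≤ B := fun n => by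
    rw [hseq]; exact TT_pow_bound tau φ B (fun _ => hψB _) n _
  have h4 := poisson_avg _ (L (g ω)) B hb hbM
    (fun x => sg (opA d) (x / Fintype.card (Dir d)) (ini f M h.bdd ω) v)
    (fun x _ => sgA_series (ini f M h.bdd ω) v x)
  have hc := card_pos (d := d)
  have h5 : Tendsto (fun t : ℝ => t * Fintype.card (Dir d)) atTop atTop :=
    tendsto_id.atTop_mul_const hc
  have h6 : Tendsto (fun t : ℝ => YY f M h.bdd t ω v) atTop (𝓝 (L (g ω))) := by
    refine (h4.comp h5).congr (fun t => ?_)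
    show sg (opA d) (t * Fintype.card (Dir d) / Fintype.card (Dir d)) (ini f M h.bdd ω) v = _
    rw [mul_div_cancel_right₀ _ hc.ne']
    rfl
  have h7 := (hggω v).add h6
  rw [zero_add] at h7
  rw [← hceω]
  refine h7.congr (fun t => ?_)
  unfold gg; ring

/-- A process which is almost surely bounded agrees almost surely with one which is bounded
everywhere. -/
theorem exists_proc (hN : PoissonClocks P F N) (hf : EdgeAveraging P F N f) :
    ∃ (M : ℝ) (f' : ℝ → Ω → Site d → ℝ), Proc P F N f' M ∧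
      ∀ᵐ ω ∂P, ∀ t v, 0 ≤ t → f' t ω v = f t ω v := by
  obtain ⟨M0, hM0⟩ := hf.bounded
  set M := |M0| with hM
  have hMM : M0 ≤ M := le_abs_self _
  have hM' : 0 ≤ M := abs_nonneg _
  set f' : ℝ → Ω → Site d → ℝ := fun t ω v => max (-M) (min M (f t ω v)) with hf'
  have heq : ∀ᵐ ω ∂P, ∀ t v, 0 ≤ t → f' t ω v = f t ω v := by
    filter_upwards [hM0] with ω hω t v ht
    have h1 := (hω t v ht).trans hMM
    show max (-M) (min M (f t ω v)) = _
    rw [min_eq_right (abs_le.1 h1).2, max_eq_right (abs_le.1 h1).1]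
  have hp : Proc P F N f' M := by
    refine ⟨hN, fun t v ht => ?_, fun t ω v ht => ?_, ?_⟩
    · exact measurable_const.max (measurable_const.min (hf.adapted t v ht))
    · rw [abs_le]
      exact ⟨le_max_left _ _, max_le (by linarith) (min_le_left _ _)⟩
    · filter_upwards [heq, good_ae hN hf] with ω e hg
      refine ⟨hg.mono, hg.right, fun v s t hs hst hh => ?_, fun b t hr x y hx hy => ?_⟩
      · rw [e t v (hs.trans hst), e s v hs]
        exact hg.keep v s t hs hst hh
      · have ht : 0 < t := hr.1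
        have hlim : ∀ w z, Tendsto (fun s => f' s ω w) (𝓝[<] t) (𝓝 z) →
            Tendsto (fun s => f s ω w) (𝓝[<] t) (𝓝 z) := by
          intro w z hz
          refine hz.congr' ?_
          filter_upwards [Ioo_mem_nhdsLT ht] with s hs
          exact e s w hs.1.le
        have := hg.average b t hr x y (hlim _ _ hx) (hlim _ _ hy)
        rw [e t b.1 ht.le, e t (tgt b) ht.le]
        exact this
  exact ⟨M, f', hp, heq⟩

/-- Stationarity depends on the profile up to null sets only. -/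
theorem stationary_congr {g g' : Ω → Site d → ℝ} (h : ∀ᵐ ω ∂P, ∀ v, g' ω v = g ω v)
    (hs : Stationary P g) : Stationary P g' := by
  intro x
  have e1 : P.map (fun ω v => g' ω (v + x)) = P.map (fun ω v => g ω (v + x)) := by
    apply Measure.map_congr
    filter_upwards [h] with ω e
    funext v
    exact e (v + x)
  have e2 : P.map g' = P.map g := by
    apply Measure.map_congr
    filter_upwards [h] with ω e
    funext v
    exact e v
  rw [e1, e2]
  exact hs x

/-- A function of a stationary profile is stationary. -/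
theorem stationary_comp {g : Ω → Site d → ℝ} (hg : Measurable g) (hs : Stationary P g)
    (ψ : ℝ → ℝ) (hψ : Measurable ψ) : Stationary P (fun ω v => ψ (g ω v)) := by
  have hΨ : Measurable (fun (η : Site d → ℝ) (v : Site d) => ψ (η v)) := by
    rw [measurable_pi_iff]
    intro v
    exact hψ.comp (measurable_pi_apply v)
  intro x
  have e1 : P.map (fun ω v => ψ (g ω (v + x))) =
      (P.map (fun ω v => g ω (v + x))).map (fun (η : Site d → ℝ) (v : Site d) => ψ (η v)) := by
    rw [Measure.map_map hΨ]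
    · rfl
    · rw [measurable_pi_iff]
      intro v
      exact (measurable_pi_apply (v + x)).comp hg
  have e2 : P.map (fun ω v => ψ (g ω v)) =
      (P.map g).map (fun (η : Site d → ℝ) (v : Site d) => ψ (η v)) := by
    rw [Measure.map_map hΨ hg]
    rfl
  rw [e1, e2, hs x]

/-- Measurability of the initial profile. -/
theorem ea_meas (hf : EdgeAveraging P F N f) : Measurable (f 0) := by
  rw [measurable_pi_iff]
  exact fun v => (hf.adapted 0 v le_rfl).mono (F.le 0) le_rfl

/-- The limit of an almost surely bounded process. -/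
theorem ea_limit [NeZero d] (hN : PoissonClocks P F N) (hf : EdgeAveraging P F N f)
    {g : Ω → Site d → ℝ} (hg : Measurable g) (hgs : Stationary P g) (ψ : ℝ → ℝ)
    (hψ : Measurable ψ) (B : ℝ) (hψB : ∀ x, |ψ x| ≤ B)
    (h0 : ∀ᵐ ω ∂P, ∀ v, f 0 ω v = ψ (g ω v)) :
    ∀ᵐ ω ∂P, ∀ v : Site d, Tendsto (fun t : ℝ => f t ω v) atTop
      (𝓝 ((P[fun ω => ψ (g ω 0) | (invSets d).comap g]) ω)) := by
  obtain ⟨M, f', hp, heq⟩ := exists_proc hN hf
  have h0' : ∀ᵐ ω ∂P, ∀ v, f' 0 ω v = ψ (g ω v) := by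
    filter_upwards [heq, h0] with ω e1 e2 v
    rw [e1 0 v le_rfl, e2 v]
  have hs' : Stationary P (f' 0) := stationary_congr h0' (stationary_comp hg hgs ψ hψ)
  filter_upwards [heq, proc_limit hp hs' hg hgs ψ hψ B hψB h0'] with ω e1 e2 v
  refine (e2 v).congr' ?_
  filter_upwards [eventually_ge_atTop (0 : ℝ)] with t ht
  exact e1 t v ht

/-- The maximal inequality for an almost surely bounded process. -/
theorem ea_max [NeZero d] (hN : PoissonClocks P F N) (hf : EdgeAveraging P F N f)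
    (hs : Stationary P (f 0)) (v : Site d) (lam : ℝ) (hlam : 0 < lam) :
    P {ω | ∃ t, 0 ≤ t ∧ lam < |f t ω v|} ≤
      ENNReal.ofReal (36 * Real.exp (2 * d) * (∫ ω, f 0 ω 0 ^ 2 ∂P) / lam ^ 2) := by
  obtain ⟨M, f', hp, heq⟩ := exists_proc hN hf
  have hs' : Stationary P (f' 0) := stationary_congr (by
    filter_upwards [heq] with ω e v
    exact e 0 v le_rfl) hs
  have h1 := proc_max hp hs' v lam hlam
  have h2 : ∫ ω, f' 0 ω 0 ^ 2 ∂P = ∫ ω, f 0 ω 0 ^ 2 ∂P := by
    refine integral_congr_ae ?_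
    filter_upwards [heq] with ω e
    rw [e 0 0 le_rfl]
  rw [h2] at h1
  refine le_trans (measure_mono_ae ?_) h1
  filter_upwards [heq] with ω e hω
  obtain ⟨t, ht, hlt⟩ := hω
  exact ⟨t, ht, by rw [e t v ht]; exact hlt⟩

/-- The left limits exist: the paths are locally constant to the left. -/
theorem left_const {ω : Ω} (hg : Good N f ω) (v : Site d) (t : ℝ) (ht : 0 < t) :
    ∃ c, ∀ᶠ s in 𝓝[<] t, f s ω v = c := by
  have h1 : ∀ a : Dir d, ∃ r, 0 ≤ r ∧ r < t ∧ ∀ s, r ≤ s → s < t →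
      N (ed v a) s ω = N (ed v a) r ω := by
    intro a
    set e := ed v a with he
    have hbd : ∀ s, 0 ≤ s → s < t → N e s ω ≤ N e t ω := fun s hs hst => hg.mono e s t hs hst.le
    set K : Set ℕ := {n | ∃ s, 0 ≤ s ∧ s < t ∧ N e s ω = n} with hK
    have hne : K.Nonempty := ⟨N e 0 ω, 0, le_rfl, ht, rfl⟩
    have hbA : BddAbove K := ⟨N e t ω, by rintro n ⟨s, h1, h2, rfl⟩; exact hbd s h1 h2⟩
    obtain ⟨r, hr0, hrt, hr⟩ := Nat.sSup_mem hne hbA
    refine ⟨r, hr0, hrt, fun s hrs hst => ?_⟩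
    have h2 := hg.mono e r s hr0 hrs
    have h3 : N e s ω ≤ sSup K := le_csSup hbA ⟨s, hr0.trans hrs, hst, rfl⟩
    omega
  choose r hr0 hrt hr using h1
  obtain ⟨r0, hr0', hr0t, hr0m⟩ : ∃ r0, 0 ≤ r0 ∧ r0 < t ∧ ∀ a, r a ≤ r0 := by
    classical
    have hfin : (Set.range r).Finite := Set.finite_range r
    by_cases hemp : Nonempty (Dir d)
    · obtain ⟨a0, ha0⟩ := Finite.exists_max r
      exact ⟨r a0, hr0 a0, hrt a0, ha0⟩
    · exact ⟨0, le_rfl, ht, fun a => absurd ⟨a⟩ hemp⟩
  refine ⟨f r0 ω v, ?_⟩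
  filter_upwards [Ioo_mem_nhdsLT hr0t] with s hs
  refine hg.keep v r0 s hr0' hs.1.le (fun e he => ?_)
  obtain ⟨a, rfl⟩ := (touches_iff e v).1 he
  rw [hr a s ((hr0m a).trans hs.1.le) hs.2, hr a r0 (hr0m a) hr0t]

/-- The difference of two processes. -/
theorem ea_sub {f' : ℝ → Ω → Site d → ℝ} (hN : PoissonClocks P F N) (hf : EdgeAveraging P F N f)
    (hf' : EdgeAveraging P F N f') : EdgeAveraging P F N (fun t ω v => f t ω v - f' t ω v) := by
  obtain ⟨M, hM⟩ := hf.bounded
  obtain ⟨M', hM'⟩ := hf'.bounded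
  refine ⟨fun t v ht => (hf.adapted t v ht).sub (hf'.adapted t v ht), ⟨M + M', ?_⟩, ?_, ?_⟩
  · filter_upwards [hM, hM'] with ω e1 e2 t v ht
    exact (abs_sub _ _).trans (add_le_add (e1 t v ht) (e2 t v ht))
  · filter_upwards [hf.keep, hf'.keep] with ω e1 e2 v s t hs hst hh
    rw [e1 v s t hs hst hh, e2 v s t hs hst hh]
  · filter_upwards [good_ae hN hf, good_ae hN hf'] with ω e1 e2 e t hr a b ha hb
    have ht : 0 < t := hr.1
    have hnb : (𝓝[<] t).NeBot := inferInstance
    obtain ⟨c1, hc1⟩ := left_const e1 e.1 t ht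
    obtain ⟨c2, hc2⟩ := left_const e1 (tgt e) t ht
    obtain ⟨c3, hc3⟩ := left_const e2 e.1 t ht
    obtain ⟨c4, hc4⟩ := left_const e2 (tgt e) t ht
    have t1 : Tendsto (fun s => f s ω e.1) (𝓝[<] t) (𝓝 c1) :=
      tendsto_const_nhds.congr' (hc1.mono (fun s hs => hs.symm))
    have t2 : Tendsto (fun s => f s ω (tgt e)) (𝓝[<] t) (𝓝 c2) :=
      tendsto_const_nhds.congr' (hc2.mono (fun s hs => hs.symm))
    have t3 : Tendsto (fun s => f' s ω e.1) (𝓝[<] t) (𝓝 c3) :=
      tendsto_const_nhds.congr' (hc3.mono (fun s hs => hs.symm))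
    have t4 : Tendsto (fun s => f' s ω (tgt e)) (𝓝[<] t) (𝓝 c4) :=
      tendsto_const_nhds.congr' (hc4.mono (fun s hs => hs.symm))
    have a1 : a = c1 - c3 := tendsto_nhds_unique ha (t1.sub t3)
    have b1 : b = c2 - c4 := tendsto_nhds_unique hb (t2.sub t4)
    have g1 := e1.average e t hr c1 c2 t1 t2
    have g2 := e2.average e t hr c3 c4 t3 t4
    rw [g1.1, g2.1, g1.2, g2.2, a1, b1]
    constructor <;> ring

end Pool.Agent.Y202.EA
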