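import Mathlib
import Pool.Agent.Y202.EA.Bdd

set_option autoImplicit false
set_option linter.unusedSectionVars false
set_option linter.unusedVariables false
set_option linter.deprecated false
open MeasureTheory ProbabilityTheory Filter Topology
open scoped BoundedContinuousFunction ENNReal
open Pool.Agent.H563R3.EA

/-! Square integrable profiles. -/

namespace Pool.Agent.Y202.EA

variable {d : ℕ} {Ω : Type} {mΩ : MeasurableSpace Ω}

/-- The truncation of a number at height `c`. -/
noncomputable def trunc (c x : ℝ) : ℝ := max (-c) (min c x)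

/-- The edge averaging process with a profile which need not be bounded: the opinions follow the
same rules, and at every time they are the limits in probability of the opinions of the processes
(driven by the same clocks) which start from the truncated profiles. -/
structure GenEdgeAveraging (P : Measure Ω) (F : Filtration ℝ mΩ) (N : Edge d → ℝ → Ω → ℕ)
    (f : ℝ → Ω → Site d → ℝ) : Prop where
  /-- the opinions at time `t` depend on the information at time `t` only -/
  adapted : ∀ t v, 0 ≤ t → Measurable[F t] (fun ω => f t ω v)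
  /-- an opinion does not change as long as no adjacent clock rings -/
  keep : ∀ᵐ ω ∂P, ∀ v s t, 0 ≤ s → s ≤ t → (∀ e, Touches e v → N e t ω = N e s ω) →
    f t ω v = f s ω v
  /-- when a clock rings, both endpoints take the average of their values just before the ring -/
  average : ∀ᵐ ω ∂P, ∀ e t, Rings N e t ω → ∀ a b : ℝ,
    Tendsto (fun s => f s ω e.1) (𝓝[<] t) (𝓝 a) →
    Tendsto (fun s => f s ω (tgt e)) (𝓝[<] t) (𝓝 b) →
    f t ω e.1 = (a + b) / 2 ∧ f t ω (tgt e) = (a + b) / 2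
  /-- approximation by the processes with truncated profiles -/
  approx : ∃ (c : ℕ → ℝ) (q : ℕ → ℝ → Ω → Site d → ℝ), Tendsto c atTop atTop ∧
    (∀ n, EdgeAveraging P F N (q n)) ∧ (∀ n, ∀ᵐ ω ∂P, ∀ v, q n 0 ω v = trunc (c n) (f 0 ω v)) ∧
    ∀ t v, 0 ≤ t → ∀ ε, 0 < ε →
      Tendsto (fun n => P {ω | ε < |q n t ω v - f t ω v|}) atTop (𝓝 0)

variable {P : Measure Ω} [IsProbabilityMeasure P] {F : Filtration ℝ mΩ}
  {N : Edge d → ℝ → Ω → ℕ} {f : ℝ → Ω → Site d → ℝ}

/-- The maximal inequality passes to limits. -/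
theorem max_limit [NeZero d] (hN : PoissonClocks P F N) {X : ℝ → Ω → Site d → ℝ}
    {q : ℕ → ℝ → Ω → Site d → ℝ} (hq : ∀ n, EdgeAveraging P F N (q n))
    (hqs : ∀ n, Stationary P (q n 0)) (v : Site d) (B : ℝ)
    (hB : ∀ᶠ n in atTop, ∫ ω, q n 0 ω 0 ^ 2 ∂P ≤ B)
    (hlim : ∀ t, 0 ≤ t → ∀ ε, 0 < ε →
      Tendsto (fun n => P {ω | ε < |q n t ω v - X t ω v|}) atTop (𝓝 0))
    (hright : ∀ᵐ ω ∂P, ∀ t, 0 ≤ t → ∃ η, 0 < η ∧ ∀ s, t < s → s < t + η → X s ω v = X t ω v)
    (lam : ℝ) (hlam : 0 < lam) :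
    P {ω | ∃ t, 0 ≤ t ∧ lam < |X t ω v|} ≤
      ENNReal.ofReal (144 * Real.exp (2 * d) * B / lam ^ 2) := by
  classical
  set C := ENNReal.ofReal (144 * Real.exp (2 * d) * B / lam ^ 2) with hC
  -- finite sets of times
  have hfin : ∀ T : Finset ℝ, (∀ t ∈ T, 0 ≤ t) → P {ω | ∃ t ∈ T, lam < |X t ω v|} ≤ C := by
    intro T hT
    have h1 : Tendsto (fun n => C + ∑ t ∈ T, P {ω | lam / 2 < |q n t ω v - X t ω v|}) atTop
        (𝓝 (C + ∑ t ∈ T, 0)) := by
      refine tendsto_const_nhds.add (tendsto_finset_sum _ (fun t ht => ?_))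
      exact hlim t (hT t ht) (lam / 2) (by positivity)
    rw [Finset.sum_const_zero, add_zero] at h1
    refine ge_of_tendsto h1 ?_
    filter_upwards [hB] with n hn
    have h2 := ea_max hN (hq n) (hqs n) v (lam / 2) (by positivity)
    have h3 : P {ω | ∃ t, 0 ≤ t ∧ lam / 2 < |q n t ω v|} ≤ C := by
      refine h2.trans (ENNReal.ofReal_le_ofReal ?_)
      have e1 : 36 * Real.exp (2 * d) * (∫ ω, q n 0 ω 0 ^ 2 ∂P) / (lam / 2) ^ 2 =
          144 * Real.exp (2 * d) * (∫ ω, q n 0 ω 0 ^ 2 ∂P) / lam ^ 2 := by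
        field_simp; ring
      rw [e1]
      gcongr
    have hsub : {ω | ∃ t ∈ T, lam < |X t ω v|} ⊆ {ω | ∃ t, 0 ≤ t ∧ lam / 2 < |q n t ω v|} ∪
        ⋃ t ∈ T, {ω | lam / 2 < |q n t ω v - X t ω v|} := by
      rintro ω ⟨t, ht, hlt⟩
      by_contra hcon
      rw [Set.mem_union, not_or] at hcon
      obtain ⟨c1, c2⟩ := hcon
      have d1 : |q n t ω v| ≤ lam / 2 := by
        by_contra hc
        exact c1 ⟨t, hT t ht, not_le.1 hc⟩
      have d2 : |q n t ω v - X t ω v| ≤ lam / 2 := by
        by_contra hc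
        exact c2 (Set.mem_iUnion₂.2 ⟨t, ht, not_le.1 hc⟩)
      have e : X t ω v = q n t ω v - (q n t ω v - X t ω v) := by ring
      have := abs_sub (q n t ω v) (q n t ω v - X t ω v)
      rw [← e] at this
      linarith
    exact (measure_mono hsub).trans ((measure_union_le _ _).trans
      (add_le_add h3 (measure_biUnion_finset_le _ _)))
  -- dyadic grids
  set G : ℕ → Set Ω := fun n => {ω | ∃ j : ℕ, j < 4 ^ n ∧ lam < |X (j * (1 / 2) ^ n) ω v|} with hG
  have hGmono : Monotone G := by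
    apply monotone_nat_of_le_succ
    rintro n ω ⟨j, hj4, hj⟩
    refine ⟨2 * j, by rw [pow_succ]; omega, ?_⟩
    have : ((2 * j : ℕ) : ℝ) * (1 / 2) ^ (n + 1) = j * (1 / 2) ^ n := by
      push_cast; rw [pow_succ]; ring
    rw [this]; exact hj
  have hGC : ∀ n, P (G n) ≤ C := by
    intro n
    have h1 := hfin ((Finset.range (4 ^ n)).image (fun j : ℕ => (j : ℝ) * (1 / 2) ^ n)) (by
      intro t ht
      obtain ⟨j, _, rfl⟩ := Finset.mem_image.1 ht
      positivity)
    refine le_trans (measure_mono ?_) h1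
    rintro ω ⟨j, hj4, hj⟩
    exact ⟨_, Finset.mem_image.2 ⟨j, Finset.mem_range.2 hj4, rfl⟩, hj⟩
  have hsub : {ω | ∃ t, 0 ≤ t ∧ lam < |X t ω v|} ≤ᵐ[P] ⋃ n, G n := by
    filter_upwards [hright] with ω hg hω
    obtain ⟨t, ht0, ht⟩ := hω
    obtain ⟨η, hη, hη2⟩ := hg t ht0
    obtain ⟨n1, hn1⟩ := exists_pow_lt_of_lt_one hη (show (1 / 2 : ℝ) < 1 by norm_num)
    obtain ⟨n2, hn2⟩ := exists_nat_gt (t + 1)
    set n := max n1 n2 with hn
    have hp : (0 : ℝ) < (1 / 2) ^ n := by positivity
    have hpn : ((1 : ℝ) / 2) ^ n < η :=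
      lt_of_le_of_lt (pow_le_pow_of_le_one (by norm_num) (by norm_num) (le_max_left _ _)) hn1
    set q := t / (1 / 2) ^ n with hq
    have hq0 : 0 ≤ q := div_nonneg ht0 hp.le
    have hfl1 := Nat.floor_le hq0
    have hfl2 := Nat.lt_floor_add_one q
    have hqp : q * (1 / 2) ^ n = t := by rw [hq]; field_simp
    refine Set.mem_iUnion.2 ⟨n, ⌊q⌋₊ + 1, ?_, ?_⟩
    · have h1 : q = t * 2 ^ n := by
        rw [hq, one_div, inv_pow, div_inv_eq_mul]
      have h2 : (t + 1) < 2 ^ n := by
        have h3 : (n2 : ℝ) ≤ 2 ^ n2 := by exact_mod_cast (Nat.lt_two_pow_self).le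
        have h4 : (2 : ℝ) ^ n2 ≤ 2 ^ n := pow_le_pow_right₀ (by norm_num) (le_max_right _ _)
        linarith
      have h3 : (1 : ℝ) ≤ 2 ^ n := one_le_pow₀ (by norm_num)
      have h4 : ((⌊q⌋₊ + 1 : ℕ) : ℝ) < (4 : ℝ) ^ n := by
        push_cast
        have h5 : (4 : ℝ) ^ n = 2 ^ n * 2 ^ n := by rw [← mul_pow]; norm_num
        rw [h5]
        have h6 : (⌊q⌋₊ : ℝ) ≤ t * 2 ^ n := by rw [← h1]; exact hfl1
        nlinarith
      exact_mod_cast h4
    · rw [hη2]
      · exact ht
      · have : q * (1 / 2) ^ n < ((⌊q⌋₊ + 1 : ℕ) : ℝ) * (1 / 2) ^ n := by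
          apply mul_lt_mul_of_pos_right _ hp
          push_cast; exact hfl2
        linarith
      · have : ((⌊q⌋₊ + 1 : ℕ) : ℝ) * (1 / 2) ^ n ≤ (q + 1) * (1 / 2) ^ n := by
          apply mul_le_mul_of_nonneg_right _ hp.le
          push_cast; linarith
        nlinarith
  calc P {ω | ∃ t, 0 ≤ t ∧ lam < |X t ω v|} ≤ P (⋃ n, G n) := measure_mono_ae hsub
    _ = ⨆ n, P (G n) := hGmono.measure_iUnion
    _ ≤ C := iSup_le hGC

/-! ### Truncation -/

theorem trunc_meas (c : ℝ) : Measurable (trunc c) :=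
  measurable_const.max (measurable_const.min measurable_id)

theorem trunc_bdd (c x : ℝ) : |trunc c x| ≤ |c| := by
  unfold trunc
  rw [abs_le]
  constructor
  · exact (neg_le_neg (le_abs_self c)).trans (le_max_left _ _)
  · refine max_le (neg_le_abs c) ((min_le_left _ _).trans (le_abs_self c))

theorem trunc_le (c x : ℝ) (hc : 0 ≤ c) : |trunc c x| ≤ |x| := by
  unfold trunc
  rcases le_total 0 x with h | h
  · rw [abs_of_nonneg h, max_eq_right (by
      have : 0 ≤ min c x := le_min hc h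
      linarith), abs_of_nonneg (le_min hc h)]
    exact min_le_right _ _
  · rw [min_eq_right (h.trans hc), abs_of_nonpos h, abs_of_nonpos (max_le (by linarith) h)]
    have := le_max_right (-c) x
    linarith

theorem trunc_eq (c x : ℝ) (h : |x| ≤ c) : trunc c x = x := by
  unfold trunc
  rw [min_eq_right (abs_le.1 h).2, max_eq_right (abs_le.1 h).1]

/-- Comparison of two truncations. -/
theorem trunc_sub (c c' x : ℝ) (hc : 0 ≤ c) (hcc : c ≤ c') :
    |trunc c' x - trunc c x| ≤ |x - trunc c x| := by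
  rcases le_total |x| c with h | h
  · rw [trunc_eq c x h, trunc_eq c' x (h.trans hcc)]
  · unfold trunc
    rcases le_total 0 x with hx | hx
    · rw [abs_of_nonneg hx] at h
      have e1 : max (-c) (min c x) = c := by
        rw [min_eq_left h, max_eq_right (by linarith)]
      have h2 : c ≤ min c' x := le_min hcc h
      have e2 : max (-c') (min c' x) = min c' x := max_eq_right (by linarith)
      rw [e1, e2, abs_of_nonneg (by linarith), abs_of_nonneg (by linarith)]
      have := min_le_right c' x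
      linarith
    · rw [abs_of_nonpos hx] at h
      have e1 : max (-c) (min c x) = -c := by
        rw [min_eq_right (by linarith), max_eq_left (by linarith)]
      have e3 : min c' x = x := min_eq_right (by linarith)
      have h2 : max (-c') x ≤ -c := max_le (by linarith) (by linarith)
      rw [e1, e3, abs_of_nonpos (by linarith), abs_of_nonpos (by linarith)]
      have := le_max_right (-c') x
      linarith

/-- The truncated functions converge in `L^2`. -/
theorem trunc_tendsto {Y : Ω → ℝ} (hY : MemLp Y 2 P) (c : ℕ → ℝ) (hc : Tendsto c atTop atTop) :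
    Tendsto (fun n => ∫ ω, (Y ω - trunc (c n) (Y ω)) ^ 2 ∂P) atTop (𝓝 0) := by
  have h0 : ∫ _ω : Ω, (0 : ℝ) ∂P = 0 := by simp
  rw [← h0]
  refine tendsto_integral_filter_of_dominated_convergence (fun ω => 4 * Y ω ^ 2) ?_ ?_ ?_ ?_
  · refine Eventually.of_forall (fun n => ?_)
    exact (hY.aestronglyMeasurable.sub
      ((trunc_meas (c n)).comp_aemeasurable hY.aestronglyMeasurable.aemeasurable).aestronglyMeasurable).pow 2
  · filter_upwards [hc.eventually_ge_atTop 0] with n hn
    refine Eventually.of_forall (fun ω => ?_)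
    rw [Real.norm_eq_abs, abs_pow]
    have h1 := trunc_le (c n) (Y ω) hn
    have h2 : |Y ω - trunc (c n) (Y ω)| ≤ 2 * |Y ω| := (abs_sub _ _).trans (by linarith)
    calc |Y ω - trunc (c n) (Y ω)| ^ 2 ≤ (2 * |Y ω|) ^ 2 := pow_le_pow_left₀ (abs_nonneg _) h2 2
      _ = 4 * Y ω ^ 2 := by rw [mul_pow, sq_abs]; norm_num
  · exact (hY.integrable_sq).const_mul 4
  · refine Eventually.of_forall (fun ω => ?_)
    refine tendsto_const_nhds.congr' ?_
    filter_upwards [hc.eventually_ge_atTop |Y ω|] with n hn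
    rw [trunc_eq _ _ hn]
    simp

end Pool.Agent.Y202.EA
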