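import Mathlib
import Pool.Agent.Y202.EA.Sq

set_option autoImplicit false
set_option linter.unusedSectionVars false
set_option linter.unusedVariables false
set_option linter.deprecated false
open MeasureTheory ProbabilityTheory Filter Topology
open scoped BoundedContinuousFunction ENNReal
open Pool.Agent.H563R3.EA

/-! The main theorem for square integrable profiles. -/

namespace Pool.Agent.Y202.EA

variable {d : ℕ} {Ω : Type} {mΩ : MeasurableSpace Ω}
variable {P : Measure Ω} [IsProbabilityMeasure P] {F : Filtration ℝ mΩ}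
  {N : Edge d → ℝ → Ω → ℕ} {f : ℝ → Ω → Site d → ℝ}

theorem gen_good (hN : PoissonClocks P F N) (hf : GenEdgeAveraging P F N f) :
    ∀ᵐ ω ∂P, Good N f ω := by
  filter_upwards [hN.paths, hf.keep, hf.average] with ω h1 h2 h3
  exact ⟨fun e => (h1 e).2.1, fun e => (h1 e).2.2, h2, h3⟩

theorem gen_meas (hf : GenEdgeAveraging P F N f) : Measurable (f 0) := by
  rw [measurable_pi_iff]
  exact fun v => (hf.adapted 0 v le_rfl).mono (F.le 0) le_rfl

/-- The truncated functions converge in `L^1`. -/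
theorem trunc_tendsto1 {Y : Ω → ℝ} (hY : Integrable Y P) (c : ℕ → ℝ)
    (hc : Tendsto c atTop atTop) :
    Tendsto (fun n => ∫ ω, |trunc (c n) (Y ω) - Y ω| ∂P) atTop (𝓝 0) := by
  have h0 : ∫ _ω : Ω, (0 : ℝ) ∂P = 0 := by simp
  rw [← h0]
  refine tendsto_integral_filter_of_dominated_convergence (fun ω => 2 * |Y ω|) ?_ ?_ ?_ ?_
  · refine Eventually.of_forall (fun n => ?_)
    exact (((trunc_meas (c n)).comp_aemeasurable
      hY.aestronglyMeasurable.aemeasurable).sub hY.aestronglyMeasurable.aemeasurable).abs.aestronglyMeasurable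
  · filter_upwards [hc.eventually_ge_atTop 0] with n hn
    refine Eventually.of_forall (fun ω => ?_)
    rw [Real.norm_eq_abs, abs_abs]
    have h1 := trunc_le (c n) (Y ω) hn
    exact (abs_sub _ _).trans (by linarith)
  · exact hY.abs.const_mul 2
  · refine Eventually.of_forall (fun ω => ?_)
    refine tendsto_const_nhds.congr' ?_
    filter_upwards [hc.eventually_ge_atTop |Y ω|] with n hn
    rw [trunc_eq _ _ hn]
    simp

/-- Conditional expectations of the truncated functions converge in probability. -/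
theorem condExp_trunc {Y : Ω → ℝ} (hY : Integrable Y P) (c : ℕ → ℝ)
    (hc : Tendsto c atTop atTop) (m : MeasurableSpace Ω) (ε : ℝ) (hε : 0 < ε) :
    Tendsto (fun n => P {ω | ε < |(P[fun ω => trunc (c n) (Y ω) | m]) ω - (P[Y | m]) ω|}) atTop
      (𝓝 0) := by
  have h1 : Tendsto (fun n => ENNReal.ofReal (ε⁻¹ * ∫ ω, |trunc (c n) (Y ω) - Y ω| ∂P)) atTop
      (𝓝 0) := by
    have h2 := (trunc_tendsto1 hY c hc).const_mul ε⁻¹
    rw [mul_zero] at h2
    have h3 := ENNReal.tendsto_ofReal h2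
    rwa [ENNReal.ofReal_zero] at h3
  refine tendsto_of_tendsto_of_tendsto_of_le_of_le tendsto_const_nhds h1 (fun n => zero_le) ?_
  intro n
  have hti : Integrable (fun ω => trunc (c n) (Y ω)) P :=
    Integrable.of_bound ((trunc_meas (c n)).comp_aemeasurable
      hY.aestronglyMeasurable.aemeasurable).aestronglyMeasurable |c n|
      (Eventually.of_forall (fun ω => by rw [Real.norm_eq_abs]; exact trunc_bdd _ _))
  have e1 : P[fun ω => trunc (c n) (Y ω) - Y ω | m] =ᵐ[P]
      P[fun ω => trunc (c n) (Y ω) | m] - P[Y | m] := condExp_sub hti hY m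
  set W : Ω → ℝ := P[fun ω => trunc (c n) (Y ω) - Y ω | m] with hW
  have h4 : P {ω | ε < |(P[fun ω => trunc (c n) (Y ω) | m]) ω - (P[Y | m]) ω|} ≤
      P {ω | ε ≤ |W ω|} := by
    refine measure_mono_ae ?_
    filter_upwards [e1] with ω e hω
    have h5 : ε < |(P[fun ω => trunc (c n) (Y ω) | m]) ω - (P[Y | m]) ω| := hω
    show ε ≤ |W ω|
    rw [e, Pi.sub_apply]
    exact h5.le
  refine h4.trans ?_
  have h6 := mul_meas_ge_le_integral_of_nonneg (μ := P) (f := fun ω => |W ω|)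
    (Eventually.of_forall (fun ω => abs_nonneg _)) integrable_condExp.abs ε
  have h7 : ∫ ω, |W ω| ∂P ≤ ∫ ω, |trunc (c n) (Y ω) - Y ω| ∂P := integral_abs_condExp_le _
  have h8 : P.real {ω | ε ≤ |W ω|} ≤ ε⁻¹ * ∫ ω, |trunc (c n) (Y ω) - Y ω| ∂P := by
    rw [inv_mul_eq_div, le_div_iff₀ hε, mul_comm]
    exact h6.trans h7
  rw [← ofReal_measureReal (measure_ne_top _ _)]
  exact ENNReal.ofReal_le_ofReal h8

/-- The main theorem for square integrable stationary profiles. -/
theorem gen_main [NeZero d] (hN : PoissonClocks P F N) (hf : GenEdgeAveraging P F N f)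
    (hs : Stationary P (f 0)) (h2 : MemLp (fun ω => f 0 ω 0) 2 P) :
    (∀ᵐ ω ∂P, ∀ v : Site d, Tendsto (fun t : ℝ => f t ω v) atTop
      (𝓝 ((P[fun ω => f 0 ω 0 | (invSets d).comap (f 0)]) ω))) ∧
    ∀ v : Site d, ∀ lam : ℝ, 0 < lam → P {ω | ∃ t, 0 ≤ t ∧ lam < |f t ω v|} ≤
      ENNReal.ofReal (144 * Real.exp (2 * d) * (∫ ω, f 0 ω 0 ^ 2 ∂P) / lam ^ 2) := by
  classical
  have hg := gen_meas hf
  have hgood := gen_good hN hf
  obtain ⟨c, q, hc, hq, hq0, hlim⟩ := hf.approx
  have h1 : Integrable (fun ω => f 0 ω 0) P := h2.integrable (by norm_num)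
  have hqs : ∀ n, Stationary P (q n 0) := fun n =>
    stationary_congr (hq0 n) (stationary_comp hg hs (trunc (c n)) (trunc_meas _))
  have hsqi : Integrable (fun ω => f 0 ω 0 ^ 2) P := h2.integrable_sq
  refine ⟨?_, fun v lam hlam => ?_⟩
  swap
  · refine max_limit hN hq hqs v _ ?_ (fun t ht ε hε => hlim t v ht ε hε) ?_ lam hlam
    · filter_upwards [hc.eventually_ge_atTop 0] with n hn
      refine integral_mono_of_nonneg (Eventually.of_forall (fun ω => sq_nonneg _)) hsqi ?_
      filter_upwards [hq0 n] with ω e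
      show q n 0 ω 0 ^ 2 ≤ f 0 ω 0 ^ 2
      rw [e 0]
      exact sq_le_sq.2 (trunc_le _ _ hn)
    · filter_upwards [hgood] with ω hgω t ht
      exact right_const hgω v t ht
  -- the processes with truncated profiles are close
  set δ : ℕ → ℝ := fun n => ∫ ω, (f 0 ω 0 - trunc (c n) (f 0 ω 0)) ^ 2 ∂P with hδ
  have hδ0 : Tendsto δ atTop (𝓝 0) := trunc_tendsto h2 c hc
  have hclose : ∀ v : Site d, ∀ ε : ℝ, 0 < ε → ∀ n, 0 ≤ c n →
      P {ω | ∃ t, 0 ≤ t ∧ ε < |f t ω v - q n t ω v|} ≤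
        ENNReal.ofReal (144 * Real.exp (2 * d) * δ n / ε ^ 2) := by
    intro v ε hε n hn
    have hq' : ∀ m, EdgeAveraging P F N (fun t ω v => q m t ω v - q n t ω v) := fun m =>
      ea_sub hN (hq m) (hq n)
    have hdi : Integrable (fun ω => (f 0 ω 0 - trunc (c n) (f 0 ω 0)) ^ 2) P := by
      have hb : MemLp (fun ω => trunc (c n) (f 0 ω 0)) 2 P :=
        MemLp.of_bound ((trunc_meas (c n)).comp ((measurable_pi_apply 0).comp hg)).aestronglyMeasurable
          |c n| (Eventually.of_forall (fun ω => by rw [Real.norm_eq_abs]; exact trunc_bdd _ _))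
      exact (h2.sub hb).integrable_sq
    refine max_limit hN (X := fun t ω v => f t ω v - q n t ω v) hq' (fun m => ?_) v (δ n) ?_ ?_ ?_
      ε hε
    · refine stationary_congr (g := fun ω v => (fun x => trunc (c m) x - trunc (c n) x) (f 0 ω v))
        ?_ (stationary_comp hg hs (fun x => trunc (c m) x - trunc (c n) x)
          ((trunc_meas _).sub (trunc_meas _)))
      filter_upwards [hq0 m, hq0 n] with ω e1 e2 u
      show q m 0 ω u - q n 0 ω u = _
      rw [e1 u, e2 u]
    · filter_upwards [hc.eventually_ge_atTop (c n)] with m hm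
      refine integral_mono_of_nonneg (Eventually.of_forall (fun ω => sq_nonneg _)) hdi ?_
      filter_upwards [hq0 m, hq0 n] with ω e1 e2
      show (q m 0 ω 0 - q n 0 ω 0) ^ 2 ≤ (f 0 ω 0 - trunc (c n) (f 0 ω 0)) ^ 2
      rw [e1 0, e2 0]
      exact sq_le_sq.2 (trunc_sub _ _ _ hn hm)
    · intro t ht η hη
      refine (hlim t v ht η hη).congr (fun m => ?_)
      congr 1
      ext ω
      show η < |q m t ω v - f t ω v| ↔ η < |(q m t ω v - q n t ω v) - (f t ω v - q n t ω v)|
      rw [sub_sub_sub_cancel_right]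
    · filter_upwards [hgood, good_ae hN (hq n)] with ω g1 g2 t ht
      obtain ⟨η1, hη1, k1⟩ := right_const g1 v t ht
      obtain ⟨η2, hη2, k2⟩ := right_const g2 v t ht
      refine ⟨min η1 η2, lt_min hη1 hη2, fun s hs1 hs2 => ?_⟩
      show f s ω v - q n s ω v = f t ω v - q n t ω v
      rw [k1 s hs1 (lt_of_lt_of_le hs2 (by gcongr; exact min_le_left _ _)),
        k2 s hs1 (lt_of_lt_of_le hs2 (by gcongr; exact min_le_right _ _))]
  -- the limits of the truncated processes
  set m := (invSets d).comap (f 0) with hm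
  set L : Ω → ℝ := P[fun ω => f 0 ω 0 | m] with hL
  set Ln : ℕ → Ω → ℝ := fun n => P[fun ω => trunc (c n) (f 0 ω 0) | m] with hLn
  have hqL : ∀ n, ∀ᵐ ω ∂P, ∀ v : Site d, Tendsto (fun t : ℝ => q n t ω v) atTop (𝓝 (Ln n ω)) :=
    fun n => ea_limit hN (hq n) hg hs (trunc (c n)) (trunc_meas _) |c n| (trunc_bdd _) (hq0 n)
  have hLL : ∀ ε : ℝ, 0 < ε → Tendsto (fun n => P {ω | ε < |Ln n ω - L ω|}) atTop (𝓝 0) :=
    fun ε hε => condExp_trunc h1 c hc m ε hε
  have key : ∀ v : Site d, ∀ ε : ℝ, 0 < ε → ∀ᵐ ω ∂P, ∃ T : ℝ, ∀ t, T ≤ t →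
      |f t ω v - L ω| ≤ 3 * ε := by
    intro v ε hε
    rw [ae_iff]
    have hb1 : Tendsto (fun n => ENNReal.ofReal (144 * Real.exp (2 * d) * δ n / ε ^ 2)) atTop
        (𝓝 0) := by
      have h3 := (hδ0.const_mul (144 * Real.exp (2 * d))).div_const (ε ^ 2)
      rw [mul_zero, zero_div] at h3
      have h4 := ENNReal.tendsto_ofReal h3
      rwa [ENNReal.ofReal_zero] at h4
    have hb2 := hb1.add (hLL ε hε)
    rw [add_zero] at hb2
    refine le_antisymm (ge_of_tendsto hb2 ?_) zero_le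
    filter_upwards [hc.eventually_ge_atTop 0] with n hn
    have hsub : {ω | ¬ ∃ T : ℝ, ∀ t, T ≤ t → |f t ω v - L ω| ≤ 3 * ε} ≤ᵐ[P]
        ({ω | ∃ t, 0 ≤ t ∧ ε < |f t ω v - q n t ω v|} ∪ {ω | ε < |Ln n ω - L ω|} : Set Ω) := by
      filter_upwards [hqL n] with ω hω hbad
      by_contra hcon
      have hcon' : ω ∉ ({ω | ∃ t, 0 ≤ t ∧ ε < |f t ω v - q n t ω v|} ∪
        {ω | ε < |Ln n ω - L ω|} : Set Ω) := hcon
      rw [Set.mem_union, not_or] at hcon'
      obtain ⟨c1, c2⟩ := hcon'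
      have d1 : ∀ t, 0 ≤ t → |f t ω v - q n t ω v| ≤ ε := by
        intro t ht
        by_contra hc
        exact c1 ⟨t, ht, not_le.1 hc⟩
      have d2 : |Ln n ω - L ω| ≤ ε := not_lt.1 c2
      obtain ⟨T, hT⟩ := (Metric.tendsto_atTop.1 (hω v)) ε hε
      refine hbad ⟨max T 0, fun t ht => ?_⟩
      have e1 := d1 t ((le_max_right _ _).trans ht)
      have e2 := hT t ((le_max_left _ _).trans ht)
      rw [Real.dist_eq] at e2
      have e3 : f t ω v - L ω = (f t ω v - q n t ω v) + (q n t ω v - Ln n ω) + (Ln n ω - L ω) := by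
        ring
      rw [e3]
      refine (abs_add_le _ _).trans ?_
      have := abs_add_le (f t ω v - q n t ω v) (q n t ω v - Ln n ω)
      linarith
    refine (measure_mono_ae hsub).trans ((measure_union_le _ _).trans ?_)
    exact add_le_add (hclose v ε hε n hn) le_rfl
  have key2 : ∀ᵐ ω ∂P, ∀ v : Site d, ∀ k : ℕ, ∃ T : ℝ, ∀ t, T ≤ t →
      |f t ω v - L ω| ≤ 3 * (1 / ((k : ℝ) + 1)) :=
    ae_all_iff.2 (fun v => ae_all_iff.2 (fun k => key v _ (by positivity)))
  filter_upwards [key2] with ω hω v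
  rw [Metric.tendsto_atTop]
  intro ε hε
  obtain ⟨k, hk⟩ := exists_nat_gt (3 / ε)
  obtain ⟨T, hT⟩ := hω v k
  refine ⟨T, fun t ht => ?_⟩
  rw [Real.dist_eq]
  refine lt_of_le_of_lt (hT t ht) ?_
  rw [div_lt_iff₀ hε] at hk
  rw [mul_one_div, div_lt_iff₀ (by positivity)]
  nlinarith

/-- Ergodic profiles: the conditional expectation is the mean. -/
theorem condExp_ergodic {g : Ω → Site d → ℝ} (hg : Measurable g) {Y : Ω → ℝ}
    (hY : Integrable Y P)
    (herg : ∀ A : Set (Site d → ℝ), MeasurableSet A → (∀ x : Site d, sft x ⁻¹' A = A) →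
      P (g ⁻¹' A) = 0 ∨ P (g ⁻¹' A) = 1) :
    P[Y | (invSets d).comap g] =ᵐ[P] fun _ => ∫ ω, Y ω ∂P := by
  have hm : (invSets d).comap g ≤ mΩ := by
    rintro s ⟨A, hA, rfl⟩
    exact hg hA.1
  symm
  refine ae_eq_condExp_of_forall_setIntegral_eq hm hY (fun s _ _ => (integrable_const _).integrableOn)
    ?_ stronglyMeasurable_const.aestronglyMeasurable
  rintro s ⟨A, hA, rfl⟩ _
  rcases herg A hA.1 hA.2 with h | h
  · rw [Measure.restrict_eq_zero.2 h, integral_zero_measure, integral_zero_measure]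
  · have h3 : ∀ᵐ ω ∂P, ω ∈ g ⁻¹' A := by
      rw [← prob_compl_eq_zero_iff (hg hA.1)] at h
      exact h
    rw [Measure.restrict_eq_self_of_ae_mem h3]
    simp

end Pool.Agent.Y202.EA
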