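import Mathlib
import Pool.Agent.Y202.EA.Gen

set_option autoImplicit false
set_option linter.unusedSectionVars false
set_option linter.unusedVariables false
set_option linter.deprecated false
open MeasureTheory ProbabilityTheory Filter Topology
open scoped BoundedContinuousFunction ENNReal
open Pool.Agent.H563R3.EA

/-! Convergence in mean square. -/

namespace Pool.Agent.Y202.EA

variable {d : ℕ} {Ω : Type} {mΩ : MeasurableSpace Ω}
variable {P : Measure Ω} [IsProbabilityMeasure P] {F : Filtration ℝ mΩ}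
  {N : Edge d → ℝ → Ω → ℕ} {f : ℝ → Ω → Site d → ℝ} {M : ℝ}

theorem eLp2 (X : Ω → ℝ) :
    eLpNorm X 2 P = (∫⁻ ω, ENNReal.ofReal (X ω ^ 2) ∂P) ^ (1 / 2 : ℝ) := by
  rw [eLpNorm_eq_lintegral_rpow_enorm_toReal two_ne_zero ENNReal.ofNat_ne_top]
  rw [ENNReal.toReal_ofNat]
  congr 1
  refine lintegral_congr (fun ω => ?_)
  rw [← ofReal_norm_eq_enorm, ENNReal.ofReal_rpow_of_nonneg (norm_nonneg _) (by norm_num),
    Real.norm_eq_abs, Real.rpow_two, sq_abs]

/-- The second moments do not increase. -/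
theorem proc_contr [NeZero d] (h : Proc P F N f M) (hs : Stationary P (f 0)) (T : ℝ) (hT : 0 ≤ T)
    (v : Site d) : ∫ ω, f T ω v ^ 2 ∂P ≤ ∫ ω, f 0 ω 0 ^ 2 ∂P := by
  have h1 := VV_int' h hs T hT
  have h2 : 0 ≤ ∫ s in (0 : ℝ)..T, VV P f M h.bdd s :=
    intervalIntegral.integral_nonneg hT (fun s hs' => VV_nonneg h hs s hs'.1)
  have h3 := sgL_sh h hs v T 0 0
  rw [zero_add, ← phi_eq h T hT, phi_apply h T hT, phi_apply h T hT] at h3
  simp only [sq]
  linarith

theorem ea_contr [NeZero d] (hN : PoissonClocks P F N) (hf : EdgeAveraging P F N f)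
    (hs : Stationary P (f 0)) (t : ℝ) (ht : 0 ≤ t) (v : Site d) :
    eLpNorm (fun ω => f t ω v) 2 P ≤ eLpNorm (fun ω => f 0 ω 0) 2 P := by
  obtain ⟨M, f', hp, heq⟩ := exists_proc hN hf
  have hs' : Stationary P (f' 0) := stationary_congr (by
    filter_upwards [heq] with ω e v
    exact e 0 v le_rfl) hs
  have h1 := proc_contr hp hs' t ht v
  have e1 : eLpNorm (fun ω => f t ω v) 2 P = eLpNorm (fun ω => f' t ω v) 2 P := by
    refine eLpNorm_congr_ae ?_
    filter_upwards [heq] with ω e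
    exact (e t v ht).symm
  have e2 : eLpNorm (fun ω => f 0 ω 0) 2 P = eLpNorm (fun ω => f' 0 ω 0) 2 P := by
    refine eLpNorm_congr_ae ?_
    filter_upwards [heq] with ω e
    exact (e 0 0 le_rfl).symm
  have hi : ∀ s, 0 ≤ s → ∀ u, ∫⁻ ω, ENNReal.ofReal (f' s ω u ^ 2) ∂P =
      ENNReal.ofReal (∫ ω, f' s ω u ^ 2 ∂P) := by
    intro s hs0 u
    rw [ofReal_integral_eq_lintegral_ofReal]
    · refine Integrable.of_bound ((hp.meas s u hs0).pow_const 2).aestronglyMeasurable (M ^ 2)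
        (Eventually.of_forall (fun ω => ?_))
      rw [Real.norm_eq_abs, abs_pow]
      exact pow_le_pow_left₀ (abs_nonneg _) (hp.bdd s ω u hs0) 2
    · exact Eventually.of_forall (fun ω => sq_nonneg _)
  rw [e1, e2, eLp2, eLp2, hi t ht v, hi 0 le_rfl 0]
  exact ENNReal.rpow_le_rpow (ENNReal.ofReal_le_ofReal h1) (by norm_num)

/-- Bounded convergence in mean square. -/
theorem bdd_L2 {q : ℝ → Ω → ℝ} {L : Ω → ℝ} (B : ℝ) (hqm : ∀ t, 0 ≤ t → Measurable (q t))
    (hLm : AEStronglyMeasurable L P) (hb : ∀ᵐ ω ∂P, ∀ t, 0 ≤ t → |q t ω| ≤ B)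
    (hlim : ∀ᵐ ω ∂P, Tendsto (fun t : ℝ => q t ω) atTop (𝓝 (L ω))) :
    Tendsto (fun t : ℝ => eLpNorm (fun ω => q t ω - L ω) 2 P) atTop (𝓝 0) := by
  have hL : ∀ᵐ ω ∂P, |L ω| ≤ B := by
    filter_upwards [hb, hlim] with ω e1 e2
    refine le_of_tendsto e2.abs ?_
    filter_upwards [eventually_ge_atTop (0 : ℝ)] with t ht
    exact e1 t ht
  have h1 : Tendsto (fun t : ℝ => ∫⁻ ω, ENNReal.ofReal ((q t ω - L ω) ^ 2) ∂P) atTop
      (𝓝 (∫⁻ _ω, (0 : ℝ≥0∞) ∂P)) := by
    refine tendsto_lintegral_filter_of_dominated_convergence'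
      (fun _ => ENNReal.ofReal ((2 * B) ^ 2)) ?_ ?_ ?_ ?_
    · filter_upwards [eventually_ge_atTop (0 : ℝ)] with t ht
      exact (((hqm t ht).aemeasurable.sub hLm.aemeasurable).pow_const 2).ennreal_ofReal
    · filter_upwards [eventually_ge_atTop (0 : ℝ)] with t ht
      filter_upwards [hb, hL] with ω e1 e2
      apply ENNReal.ofReal_le_ofReal
      rw [← sq_abs]
      refine pow_le_pow_left₀ (abs_nonneg _) ?_ 2
      refine (abs_sub _ _).trans ?_
      have := e1 t ht
      linarith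
    · rw [lintegral_const]
      exact ENNReal.mul_ne_top ENNReal.ofReal_ne_top (measure_ne_top _ _)
    · filter_upwards [hlim] with ω e
      have h2 := ((e.sub_const (L ω)).pow 2)
      rw [sub_self, zero_pow two_ne_zero] at h2
      have h3 := ENNReal.tendsto_ofReal h2
      rwa [ENNReal.ofReal_zero] at h3
  rw [lintegral_zero] at h1
  have h2 := (ENNReal.continuous_rpow_const (y := (1 / 2 : ℝ))).continuousAt.tendsto.comp h1
  rw [ENNReal.zero_rpow_of_pos (by norm_num)] at h2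
  refine h2.congr (fun t => ?_)
  rw [eLp2]
  rfl

/-- Convergence in mean square for square integrable profiles. -/
theorem gen_L2 [NeZero d] (hN : PoissonClocks P F N) (hf : GenEdgeAveraging P F N f)
    (hs : Stationary P (f 0)) (h2 : MemLp (fun ω => f 0 ω 0) 2 P) (v : Site d) :
    Tendsto (fun t : ℝ => eLpNorm (fun ω => f t ω v -
      (P[fun ω => f 0 ω 0 | (invSets d).comap (f 0)]) ω) 2 P) atTop (𝓝 0) := by
  classical
  have hg := gen_meas hf
  have hgm : ∀ t, 0 ≤ t → ∀ u, Measurable (fun ω => f t ω u) := fun t ht u =>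
    (hf.adapted t u ht).mono (F.le t) le_rfl
  have hmain := (gen_main hN hf hs h2).1
  obtain ⟨c, q, hc, hq, hq0, hlim⟩ := hf.approx
  have hqm : ∀ n t, 0 ≤ t → ∀ u, Measurable (fun ω => q n t ω u) := fun n t ht u =>
    ((hq n).adapted t u ht).mono (F.le t) le_rfl
  set L : Ω → ℝ := P[fun ω => f 0 ω 0 | (invSets d).comap (f 0)] with hL
  set Ln : ℕ → Ω → ℝ := fun n =>
    P[fun ω => trunc (c n) (f 0 ω 0) | (invSets d).comap (f 0)] with hLn
  have hLm : AEStronglyMeasurable L P := integrable_condExp.aestronglyMeasurable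
  have hLnm : ∀ n, AEStronglyMeasurable (Ln n) P := fun n =>
    integrable_condExp.aestronglyMeasurable
  have hqL : ∀ n, ∀ᵐ ω ∂P, ∀ v : Site d, Tendsto (fun t : ℝ => q n t ω v) atTop (𝓝 (Ln n ω)) :=
    fun n => ea_limit hN (hq n) hg hs (trunc (c n)) (trunc_meas _) |c n| (trunc_bdd _) (hq0 n)
  set Δ : ℕ → ℝ≥0∞ := fun n => eLpNorm (fun ω => f 0 ω 0 - trunc (c n) (f 0 ω 0)) 2 P with hΔ
  have hΔ0 : Tendsto Δ atTop (𝓝 0) := by
    have h3 := trunc_tendsto h2 c hc
    have h4 := ENNReal.tendsto_ofReal h3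
    rw [ENNReal.ofReal_zero] at h4
    have h5 := (ENNReal.continuous_rpow_const (y := (1 / 2 : ℝ))).continuousAt.tendsto.comp h4
    rw [ENNReal.zero_rpow_of_pos (by norm_num)] at h5
    refine h5.congr (fun n => ?_)
    simp only [hΔ]
    rw [eLp2]
    show (ENNReal.ofReal (∫ ω, (f 0 ω 0 - trunc (c n) (f 0 ω 0)) ^ 2 ∂P)) ^ (1 / 2 : ℝ) = _
    rw [ofReal_integral_eq_lintegral_ofReal]
    · have hb : MemLp (fun ω => trunc (c n) (f 0 ω 0)) 2 P :=
        MemLp.of_bound ((trunc_meas (c n)).comp ((measurable_pi_apply 0).comp hg)).aestronglyMeasurable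
          |c n| (Eventually.of_forall (fun ω => by rw [Real.norm_eq_abs]; exact trunc_bdd _ _))
      exact (h2.sub hb).integrable_sq
    · exact Eventually.of_forall (fun ω => sq_nonneg _)
  -- first comparison
  have hA : ∀ n, 0 ≤ c n → ∀ t, 0 ≤ t → eLpNorm (fun ω => f t ω v - q n t ω v) 2 P ≤ Δ n := by
    intro n hn t ht
    refine eLpNorm_le_of_tendstoInMeasure (u := atTop) (f := fun m ω => q m t ω v - q n t ω v)
      ?_ ?_ (fun m => ((hqm m t ht v).sub (hqm n t ht v)).aestronglyMeasurable)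
    · filter_upwards [hc.eventually_ge_atTop (c n)] with m hm
      have hq' : EdgeAveraging P F N (fun t ω v => q m t ω v - q n t ω v) := ea_sub hN (hq m) (hq n)
      have hst : Stationary P ((fun t ω v => q m t ω v - q n t ω v) (0 : ℝ)) := by
        refine stationary_congr (g := fun ω v => (fun x => trunc (c m) x - trunc (c n) x) (f 0 ω v))
          ?_ (stationary_comp hg hs (fun x => trunc (c m) x - trunc (c n) x)
            ((trunc_meas _).sub (trunc_meas _)))
        filter_upwards [hq0 m, hq0 n] with ω e1 e2 u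
        show q m 0 ω u - q n 0 ω u = _
        rw [e1 u, e2 u]
      refine (ea_contr hN hq' hst t ht v).trans ?_
      refine eLpNorm_mono_ae ?_
      filter_upwards [hq0 m, hq0 n] with ω e1 e2
      show ‖q m 0 ω 0 - q n 0 ω 0‖ ≤ ‖f 0 ω 0 - trunc (c n) (f 0 ω 0)‖
      rw [e1 0, e2 0, Real.norm_eq_abs, Real.norm_eq_abs]
      exact trunc_sub _ _ _ hn hm
    · rw [tendstoInMeasure_iff_norm]
      intro ε hε
      refine tendsto_of_tendsto_of_tendsto_of_le_of_le tendsto_const_nhds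
        (hlim t v ht (ε / 2) (by positivity)) (fun _ => zero_le) (fun m => measure_mono ?_)
      intro ω hω
      have h3 : ε ≤ ‖(q m t ω v - q n t ω v) - (f t ω v - q n t ω v)‖ := hω
      rw [sub_sub_sub_cancel_right, Real.norm_eq_abs] at h3
      show ε / 2 < |q m t ω v - f t ω v|
      linarith
  have hB : ∀ n, 0 ≤ c n → eLpNorm (fun ω => Ln n ω - L ω) 2 P ≤ Δ n := by
    intro n hn
    have h3 : eLpNorm (fun ω => L ω - Ln n ω) 2 P ≤ Δ n := by
      refine Lp.eLpNorm_le_of_ae_tendsto (u := atTop)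
        (f := fun (k : ℕ) ω => f (k : ℝ) ω v - q n (k : ℝ) ω v)
        (Eventually.of_forall (fun k => hA n hn k (Nat.cast_nonneg k)))
        (fun k => ((hgm k (Nat.cast_nonneg k) v).sub
          (hqm n k (Nat.cast_nonneg k) v)).aestronglyMeasurable) ?_
      filter_upwards [hmain, hqL n] with ω e1 e2
      exact ((e1 v).sub (e2 v)).comp tendsto_natCast_atTop_atTop
    have e : (fun ω => Ln n ω - L ω) = -(fun ω => L ω - Ln n ω) := by
      funext ω
      simp
    rw [e, eLpNorm_neg]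
    exact h3
  have hC : ∀ n, Tendsto (fun t : ℝ => eLpNorm (fun ω => q n t ω v - Ln n ω) 2 P) atTop (𝓝 0) := by
    intro n
    obtain ⟨B, hB'⟩ := (hq n).bounded
    refine bdd_L2 B (fun t ht => hqm n t ht v) (hLnm n) ?_ ?_
    · filter_upwards [hB'] with ω e t ht
      exact e t v ht
    · filter_upwards [hqL n] with ω e
      exact e v
  rw [ENNReal.tendsto_nhds_zero]
  intro ε hε
  have hε3 : 0 < ε / 3 := ENNReal.div_pos hε.ne' (by norm_num)
  obtain ⟨n, hn1, hn2⟩ := (((ENNReal.tendsto_nhds_zero.1 hΔ0) (ε / 3) hε3).and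
    (hc.eventually_ge_atTop 0)).exists
  filter_upwards [(ENNReal.tendsto_nhds_zero.1 (hC n)) (ε / 3) hε3, eventually_ge_atTop (0 : ℝ)]
    with t ht1 ht2
  have e : (fun ω => f t ω v - L ω) = ((fun ω => f t ω v - q n t ω v) +
      (fun ω => q n t ω v - Ln n ω)) + (fun ω => Ln n ω - L ω) := by
    funext ω
    simp only [Pi.add_apply]
    ring
  have m1 : AEStronglyMeasurable (fun ω => f t ω v - q n t ω v) P :=
    ((hgm t ht2 v).sub (hqm n t ht2 v)).aestronglyMeasurable
  have m2 : AEStronglyMeasurable (fun ω => q n t ω v - Ln n ω) P :=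
    (hqm n t ht2 v).aestronglyMeasurable.sub (hLnm n)
  have m3 : AEStronglyMeasurable (fun ω => Ln n ω - L ω) P := (hLnm n).sub hLm
  rw [e]
  refine (eLpNorm_add_le (m1.add m2) m3 (by norm_num)).trans ?_
  refine (add_le_add (eLpNorm_add_le m1 m2 (by norm_num)) le_rfl).trans ?_
  calc eLpNorm (fun ω => f t ω v - q n t ω v) 2 P + eLpNorm (fun ω => q n t ω v - Ln n ω) 2 P +
        eLpNorm (fun ω => Ln n ω - L ω) 2 P ≤ ε / 3 + ε / 3 + ε / 3 :=
        add_le_add (add_le_add ((hA n hn2 t ht2).trans hn1) ht1) ((hB n hn2).trans hn1)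
    _ = ε := ENNReal.add_thirds ε

end Pool.Agent.Y202.EA
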